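import Pool.Agent.H.MP_8b7a64_al.InvMon

/-!
# Normal forms in the monoid of truncated horoballs
-/

namespace Pool.Agent.H.MP_8b7a64_al

/-- The relations of the example, inside an arbitrary inverse monoid. -/
structure Model (M : Type) [InvMon M] where
  a : Mˣ
  s : M
  e : M
  z : M
  hsa : s * a = a * a * s
  hee : e * e = e
  hes : e * s = s * e
  hess : e * s * s⁻¹ = e
  hodd : s * s⁻¹ * a * s * s⁻¹ = z
  hz : ∀ x : M, x * z = z ∧ z * x = z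

/-- `l` is an admissible level of the (truncated) horoball of height `K` (`none` is `∞`). -/
def Ok (K : Option ℕ) (l : ℕ) : Prop := ∀ n ∈ K, l ≤ n

lemma ok_none (l : ℕ) : Ok none l := by intro n hn; simp at hn

lemma ok_some {K l : ℕ} : Ok (some K) l ↔ l ≤ K := by simp [Ok]

lemma Ok.mono {K : Option ℕ} {l l' : ℕ} (h : Ok K l') (hl : l ≤ l') : Ok K l :=
  fun n hn => hl.trans (h n hn)

lemma ok_zero (K : Option ℕ) : Ok K 0 := fun _ _ => Nat.zero_le _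

namespace Model

variable {M : Type} [InvMon M] (m : Model M)

lemma unit_inv (u : Mˣ) : (u : M)⁻¹ = ((u⁻¹ : Mˣ) : M) := by
  obtain ⟨t, _, ht⟩ := isInverseMonoid M (u : M)
  rw [ht _ ⟨xix _, ixi _⟩]
  refine (ht _ ⟨?_, ?_⟩).symm
  · simp
  · simp

lemma s_a (j : ℤ) : m.s * ((m.a ^ j : Mˣ) : M) = ((m.a ^ (2 * j) : Mˣ) : M) * m.s := by
  have h : SemiconjBy m.s (m.a : M) ((m.a ^ 2 : Mˣ) : M) := by
    change m.s * m.a = ((m.a ^ 2 : Mˣ) : M) * m.s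
    rw [pow_two, Units.val_mul]
    exact m.hsa
  have h2 := h.units_zpow_right j
  rw [zpow_mul, zpow_ofNat]
  exact h2

lemma a_sinv (j : ℤ) : ((m.a ^ j : Mˣ) : M) * m.s⁻¹ = m.s⁻¹ * ((m.a ^ (2 * j) : Mˣ) : M) := by
  have h := congrArg (fun x => x⁻¹) (m.s_a (-j))
  simp only [mir, unit_inv] at h
  rw [← zpow_neg, ← zpow_neg] at h
  have e1 : - -j = j := by ring
  have e2 : -(2 * -j) = 2 * j := by ring
  rwa [e1, e2] at h

lemma sl_a (l : ℕ) (j : ℤ) :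
    m.s ^ l * ((m.a ^ j : Mˣ) : M) = ((m.a ^ (2 ^ l * j) : Mˣ) : M) * m.s ^ l := by
  induction l generalizing j with
  | zero => simp
  | succ l ih =>
    rw [pow_succ, mul_assoc, m.s_a, ← mul_assoc, ih, mul_assoc]
    congr 3
    ring_nf

lemma a_slinv (l : ℕ) (j : ℤ) :
    ((m.a ^ j : Mˣ) : M) * (m.s ^ l)⁻¹ = (m.s ^ l)⁻¹ * ((m.a ^ (2 ^ l * j) : Mˣ) : M) := by
  have h := congrArg (fun x => x⁻¹) (m.sl_a l (-j))
  simp only [mir, unit_inv] at h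
  rw [← zpow_neg, ← zpow_neg] at h
  have e1 : - -j = j := by ring
  have e2 : -(2 ^ l * -j) = 2 ^ l * j := by ring
  rwa [e1, e2] at h

/-- The idempotent certifying a tower of height `K`. -/
def E : Option ℕ → M
  | none => m.e
  | some n => m.s ^ n * (m.s ^ n)⁻¹

lemma e_comm_sl (n : ℕ) : m.e * m.s ^ n = m.s ^ n * m.e := by
  have h : Commute m.e m.s := m.hes
  exact (h.pow_right n)

lemma sinv_e : m.s⁻¹ * m.e = m.e * m.s⁻¹ := by
  have h := congrArg (fun x => x⁻¹) m.hes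
  simpa only [mir, inv_of_idem m.hee] using h

lemma E_mul_E {K : Option ℕ} {n : ℕ} (h : Ok K n) : m.E K * (m.s ^ n * (m.s ^ n)⁻¹) = m.E K := by
  cases K with
  | some N =>
    rw [ok_some] at h
    obtain ⟨k, rfl⟩ := Nat.exists_eq_add_of_le h
    change (m.s ^ (n + k) * (m.s ^ (n + k))⁻¹) * (m.s ^ n * (m.s ^ n)⁻¹) =
      m.s ^ (n + k) * (m.s ^ (n + k))⁻¹
    rw [idem_mul_comm (idem_xi _) (idem_xi _), ← mul_assoc]
    congr 1
    rw [pow_add, ← mul_assoc, xix]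
  | none =>
    change m.e * (m.s ^ n * (m.s ^ n)⁻¹) = m.e
    clear h
    induction n with
    | zero =>
      have h1 : (1 : M)⁻¹ = 1 := inv_of_idem (one_mul 1)
      rw [pow_zero, h1, mul_one, mul_one]
    | succ n ih =>
      rw [pow_succ, mir]
      calc m.e * (m.s ^ n * m.s * (m.s⁻¹ * (m.s ^ n)⁻¹))
          = (m.e * m.s ^ n) * (m.s * m.s⁻¹) * (m.s ^ n)⁻¹ := by simp only [mul_assoc]
        _ = m.s ^ n * (m.e * m.s * m.s⁻¹) * (m.s ^ n)⁻¹ := by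
            rw [m.e_comm_sl]; simp only [mul_assoc]
        _ = m.e * (m.s ^ n * (m.s ^ n)⁻¹) := by
            rw [m.hess, ← m.e_comm_sl, mul_assoc]
        _ = m.e := ih

/-- `E K s^{l+1} s⁻¹ = E K s^l` when `l < K`. -/
lemma E_up_down {K : Option ℕ} {l : ℕ} (h : Ok K (l + 1)) :
    m.E K * m.s ^ (l + 1) * m.s⁻¹ = m.E K * m.s ^ l := by
  have h1 := m.E_mul_E h
  symm
  calc m.E K * m.s ^ l
      = m.E K * (m.s ^ (l + 1) * (m.s ^ (l + 1))⁻¹) * m.s ^ l := by rw [h1]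
    _ = m.E K * (m.s ^ l * (m.s * m.s⁻¹ * ((m.s ^ l)⁻¹ * m.s ^ l))) := by
        rw [pow_succ, mir]; simp only [mul_assoc]
    _ = m.E K * (m.s ^ l * ((m.s ^ l)⁻¹ * m.s ^ l * (m.s * m.s⁻¹))) := by
        rw [idem_mul_comm (idem_xi m.s) (idem_ix _)]
    _ = m.E K * ((m.s ^ l * (m.s ^ l)⁻¹ * m.s ^ l) * (m.s * m.s⁻¹)) := by
        simp only [mul_assoc]
    _ = m.E K * m.s ^ (l + 1) * m.s⁻¹ := by
        rw [xix, pow_succ]; simp only [mul_assoc]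

lemma E_ss {K : Option ℕ} {l : ℕ} (h : Ok K (l + 1)) :
    m.E K * m.s ^ l * (m.s * m.s⁻¹) = m.E K * m.s ^ l := by
  conv_rhs => rw [← m.E_up_down h]
  rw [pow_succ]; simp only [mul_assoc]

lemma ss_comm (i : ℤ) : m.s * m.s⁻¹ * ((m.a ^ (2 * i) : Mˣ) : M) =
    ((m.a ^ (2 * i) : Mˣ) : M) * (m.s * m.s⁻¹) := by
  rw [mul_assoc, ← m.a_sinv, ← mul_assoc, m.s_a, mul_assoc]

/-- Parity conflict. -/
lemma odd_zero {K : Option ℕ} {l : ℕ} (h : Ok K (l + 1)) (i : ℤ) :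
    m.E K * m.s ^ l * ((m.a ^ (2 * i + 1) : Mˣ) : M) * m.s = m.z := by
  have h1 : m.s * m.s⁻¹ * m.a * m.s = m.z := by
    calc m.s * m.s⁻¹ * m.a * m.s = m.s * m.s⁻¹ * m.a * (m.s * m.s⁻¹ * m.s) := by rw [xix]
      _ = (m.s * m.s⁻¹ * m.a * m.s * m.s⁻¹) * m.s := by simp only [mul_assoc]
      _ = m.z := by rw [m.hodd, (m.hz _).2]
  calc m.E K * m.s ^ l * ((m.a ^ (2 * i + 1) : Mˣ) : M) * m.s
      = m.E K * m.s ^ l * (m.s * m.s⁻¹) * ((m.a ^ (2 * i + 1) : Mˣ) : M) * m.s := by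
        rw [m.E_ss h]
    _ = m.E K * m.s ^ l * (m.s * m.s⁻¹ * ((m.a ^ (2 * i) : Mˣ) : M)) * (m.a * m.s) := by
        rw [zpow_add, zpow_one, Units.val_mul]; simp only [mul_assoc]
    _ = m.E K * m.s ^ l * ((m.a ^ (2 * i) : Mˣ) : M) * (m.s * m.s⁻¹ * m.a * m.s) := by
        rw [m.ss_comm]; simp only [mul_assoc]
    _ = m.z := by rw [h1, (m.hz _).1]

/-- The path from the foot `(0,0)` of the tower to the vertex `(l, j)`. -/
def w (v : ℕ × ℤ) : M := m.s ^ v.1 * ((m.a ^ v.2 : Mˣ) : M)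

/-- The normal forms. -/
def N (K : Option ℕ) (u v : ℕ × ℤ) : M := (m.w u)⁻¹ * m.E K * m.w v

/-- The set of elements in normal form. -/
def IsNF (x : M) : Prop :=
  x = m.z ∨ ∃ (K : Option ℕ) (u v : ℕ × ℤ), Ok K u.1 ∧ Ok K v.1 ∧ x = m.N K u v

lemma N_a (K : Option ℕ) (u : ℕ × ℤ) (l : ℕ) (j i : ℤ) :
    m.N K u (l, j) * ((m.a ^ i : Mˣ) : M) = m.N K u (l, j + i) := by
  unfold N w
  rw [zpow_add, Units.val_mul]; simp only [mul_assoc]

lemma N_s_even {K : Option ℕ} (u : ℕ × ℤ) {l : ℕ} (i : ℤ) :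
    m.N K u (l, 2 * i) * m.s = m.N K u (l + 1, i) := by
  unfold N w
  simp only [mul_assoc]
  rw [← m.s_a, pow_succ]; simp only [mul_assoc]

lemma N_sinv {K : Option ℕ} (u : ℕ × ℤ) {l : ℕ} (h : Ok K (l + 1)) (j : ℤ) :
    m.N K u (l + 1, j) * m.s⁻¹ = m.N K u (l, 2 * j) := by
  unfold N w
  have h1 := m.E_up_down h
  calc (m.s ^ u.1 * ((m.a ^ u.2 : Mˣ) : M))⁻¹ * m.E K * (m.s ^ (l + 1) * ((m.a ^ j : Mˣ) : M)) *
        m.s⁻¹
      = (m.s ^ u.1 * ((m.a ^ u.2 : Mˣ) : M))⁻¹ * (m.E K * m.s ^ (l + 1) *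
          (((m.a ^ j : Mˣ) : M) * m.s⁻¹)) := by simp only [mul_assoc]
    _ = (m.s ^ u.1 * ((m.a ^ u.2 : Mˣ) : M))⁻¹ * ((m.E K * m.s ^ (l + 1) * m.s⁻¹) *
          ((m.a ^ (2 * j) : Mˣ) : M)) := by rw [m.a_sinv]; simp only [mul_assoc]
    _ = _ := by rw [h1]; simp only [mul_assoc]

lemma N_s_odd {K : Option ℕ} (u : ℕ × ℤ) {l : ℕ} (h : Ok K (l + 1)) (i : ℤ) :
    m.N K u (l, 2 * i + 1) * m.s = m.z := by
  unfold N w
  calc _ = (m.s ^ u.1 * ((m.a ^ u.2 : Mˣ) : M))⁻¹ *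
        (m.E K * m.s ^ l * ((m.a ^ (2 * i + 1) : Mˣ) : M) * m.s) := by simp only [mul_assoc]
    _ = m.z := by rw [m.odd_zero h, (m.hz _).1]

lemma E_comm (n : ℕ) (i : ℤ) : m.E (some n) * ((m.a ^ (2 ^ n * i) : Mˣ) : M) =
    ((m.a ^ (2 ^ n * i) : Mˣ) : M) * m.E (some n) := by
  change m.s ^ n * (m.s ^ n)⁻¹ * ((m.a ^ (2 ^ n * i) : Mˣ) : M) =
    ((m.a ^ (2 ^ n * i) : Mˣ) : M) * (m.s ^ n * (m.s ^ n)⁻¹)
  rw [mul_assoc, ← m.a_slinv, ← mul_assoc, m.sl_a, mul_assoc]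

/-- Changing the root by a translation. -/
lemma w_inv_a {n : ℕ} (u : ℕ × ℤ) (hu : u.1 ≤ n) (i : ℤ) :
    (m.w u)⁻¹ * ((m.a ^ (2 ^ n * i) : Mˣ) : M) = (m.w (u.1, u.2 - 2 ^ (n - u.1) * i))⁻¹ := by
  have h1 : m.w (u.1, u.2 - 2 ^ (n - u.1) * i) = ((m.a ^ (-(2 ^ n * i)) : Mˣ) : M) * m.w u := by
    unfold w
    have e1 : u.2 - 2 ^ (n - u.1) * i = -(2 ^ (n - u.1) * i) + u.2 := by ring
    have e2 : -(2 ^ n * i) = 2 ^ u.1 * (-(2 ^ (n - u.1) * i)) := by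
      have : (2 : ℤ) ^ n = 2 ^ u.1 * 2 ^ (n - u.1) := by
        rw [← pow_add]; congr 1; omega
      rw [this]; ring
    rw [e1, zpow_add, Units.val_mul, ← mul_assoc, m.sl_a, ← e2, mul_assoc]
  rw [h1, mir, unit_inv, ← zpow_neg, neg_neg]

/-- Extending the horoball at the top. -/
lemma N_s_top (n : ℕ) (u : ℕ × ℤ) (hu : u.1 ≤ n) (j : ℤ) :
    m.N (some n) u (n, j) * m.s =
      m.N (some (n + 1)) (u.1, u.2 - 2 ^ (n - u.1) * j) (n + 1, 0) := by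
  unfold N
  rw [← m.w_inv_a u hu]
  unfold w E
  simp only [zpow_zero, Units.val_one, mul_one]
  calc (m.s ^ u.1 * ((m.a ^ u.2 : Mˣ) : M))⁻¹ * (m.s ^ n * (m.s ^ n)⁻¹) *
        (m.s ^ n * ((m.a ^ j : Mˣ) : M)) * m.s
      = (m.s ^ u.1 * ((m.a ^ u.2 : Mˣ) : M))⁻¹ * (m.s ^ n * (m.s ^ n)⁻¹ * m.s ^ n) *
        ((m.a ^ j : Mˣ) : M) * m.s := by simp only [mul_assoc]
    _ = (m.s ^ u.1 * ((m.a ^ u.2 : Mˣ) : M))⁻¹ * (m.s ^ n * ((m.a ^ j : Mˣ) : M)) * m.s := by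
        rw [xix]; simp only [mul_assoc]
    _ = (m.s ^ u.1 * ((m.a ^ u.2 : Mˣ) : M))⁻¹ * ((m.a ^ (2 ^ n * j) : Mˣ) : M) *
        m.s ^ (n + 1) := by rw [m.sl_a n j, pow_succ]; simp only [mul_assoc]
    _ = (m.s ^ u.1 * ((m.a ^ u.2 : Mˣ) : M))⁻¹ * ((m.a ^ (2 ^ n * j) : Mˣ) : M) *
        (m.s ^ (n + 1) * (m.s ^ (n + 1))⁻¹ * m.s ^ (n + 1)) := by rw [xix]
    _ = _ := by simp only [mul_assoc]

lemma E_sinv (K : Option ℕ) :
    m.E K * m.s⁻¹ = m.s⁻¹ * m.E (K.map (· + 1)) := by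
  cases K with
  | none => exact m.sinv_e.symm
  | some n =>
    change m.s ^ n * (m.s ^ n)⁻¹ * m.s⁻¹ = m.s⁻¹ * (m.s ^ (n + 1) * (m.s ^ (n + 1))⁻¹)
    rw [pow_succ', mir]
    calc m.s ^ n * (m.s ^ n)⁻¹ * m.s⁻¹
        = m.s ^ n * (m.s ^ n)⁻¹ * (m.s⁻¹ * m.s * m.s⁻¹) := by rw [ixi]
      _ = (m.s ^ n * (m.s ^ n)⁻¹ * (m.s⁻¹ * m.s)) * m.s⁻¹ := by simp only [mul_assoc]
      _ = (m.s⁻¹ * m.s * (m.s ^ n * (m.s ^ n)⁻¹)) * m.s⁻¹ := by
          rw [idem_mul_comm (idem_xi _) (idem_ix _)]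
      _ = _ := by simp only [mul_assoc]

/-- Extending the horoball at the bottom. -/
lemma N_sinv_bot (K : Option ℕ) (u : ℕ × ℤ) (j : ℤ) :
    m.N K u (0, j) * m.s⁻¹ = m.N (K.map (· + 1)) (u.1 + 1, u.2) (0, 2 * j) := by
  unfold N w
  simp only [pow_zero, one_mul]
  rw [pow_succ']
  calc (m.s ^ u.1 * ((m.a ^ u.2 : Mˣ) : M))⁻¹ * m.E K * ((m.a ^ j : Mˣ) : M) * m.s⁻¹
      = (m.s ^ u.1 * ((m.a ^ u.2 : Mˣ) : M))⁻¹ * (m.E K * m.s⁻¹) *
          ((m.a ^ (2 * j) : Mˣ) : M) := by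
        rw [mul_assoc _ _ m.s⁻¹, m.a_sinv]; simp only [mul_assoc]
    _ = ((m.s ^ u.1 * ((m.a ^ u.2 : Mˣ) : M))⁻¹ * m.s⁻¹) * m.E (K.map (· + 1)) *
          ((m.a ^ (2 * j) : Mˣ) : M) := by rw [m.E_sinv]; simp only [mul_assoc]
    _ = _ := by rw [← mir]; simp only [mul_assoc]

lemma E_e (K : Option ℕ) : m.E K * m.e = m.e := by
  cases K with
  | none => exact m.hee
  | some n =>
    have h1 := m.E_mul_E (ok_none n)
    change m.s ^ n * (m.s ^ n)⁻¹ * m.e = m.e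
    rw [idem_mul_comm (idem_xi _) m.hee]
    exact h1

lemma N_e_zero (K : Option ℕ) (u : ℕ × ℤ) (l : ℕ) :
    m.N K u (l, 0) * m.e = m.N none u (l, 0) := by
  unfold N w
  simp only [zpow_zero, Units.val_one, mul_one]
  change _ = (m.s ^ u.1 * ((m.a ^ u.2 : Mˣ) : M))⁻¹ * m.e * m.s ^ l
  calc (m.s ^ u.1 * ((m.a ^ u.2 : Mˣ) : M))⁻¹ * m.E K * m.s ^ l * m.e
      = (m.s ^ u.1 * ((m.a ^ u.2 : Mˣ) : M))⁻¹ * (m.E K * m.e) * m.s ^ l := by
        simp only [mul_assoc]; rw [m.e_comm_sl]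
    _ = _ := by rw [m.E_e]

lemma e_as_ss (n : ℕ) : m.e = m.s ^ n * (m.s ^ n)⁻¹ * m.e := by
  have h1 := m.E_mul_E (ok_none n)
  rw [idem_mul_comm (idem_xi _) m.hee]
  exact h1.symm

/-- `N K u (l, 2^i * odd) * e = z` when `l + i < K`. -/
lemma N_e_conflict {K : Option ℕ} (u : ℕ × ℤ) {l i : ℕ} (h : Ok K (l + i + 1)) (k : ℤ) :
    m.N K u (l, 2 ^ i * (2 * k + 1)) * m.e = m.z := by
  have hz := m.N_s_odd u h k
  have h2 : m.N K u (l, 2 ^ i * (2 * k + 1)) * m.s ^ i = m.N K u (l + i, 2 * k + 1) := by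
    unfold N w
    simp only [mul_assoc]
    rw [← m.sl_a, pow_add]; simp only [mul_assoc]
  rw [m.e_as_ss (i + 1), pow_succ]
  calc m.N K u (l, 2 ^ i * (2 * k + 1)) * (m.s ^ i * m.s * (m.s ^ i * m.s)⁻¹ * m.e)
      = (m.N K u (l, 2 ^ i * (2 * k + 1)) * m.s ^ i) * m.s * ((m.s ^ i * m.s)⁻¹ * m.e) := by
        simp only [mul_assoc]
    _ = m.z := by rw [h2, hz, (m.hz _).2]

lemma exists_two_pow_odd (j : ℤ) (hj : j ≠ 0) : ∃ (i : ℕ) (k : ℤ), j = 2 ^ i * (2 * k + 1) := by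
  obtain ⟨i, r, hr, h⟩ : ∃ (i : ℕ) (r : ℤ), ¬ (2 ∣ r) ∧ j = 2 ^ i * r := by
    have hfin : FiniteMultiplicity (2 : ℤ) j := Int.finiteMultiplicity_iff.mpr ⟨by decide, hj⟩
    obtain ⟨r, hr, h⟩ := hfin.exists_eq_pow_mul_and_not_dvd
    exact ⟨_, r, h, hr⟩
  refine ⟨i, r / 2, ?_⟩
  have h1 : 2 * (r / 2) + 1 = r := by omega
  rw [h1]; exact h

/-- Normal forms are stable under right multiplication by powers of `a`. -/
lemma isNF_a {x : M} (h : m.IsNF x) (i : ℤ) : m.IsNF (x * ((m.a ^ i : Mˣ) : M)) := by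
  rcases h with rfl | ⟨K, u, ⟨l, j⟩, hu, hv, rfl⟩
  · exact Or.inl (m.hz _).2
  · exact Or.inr ⟨K, u, (l, j + i), hu, hv, m.N_a K u l j i⟩

lemma isNF_s {x : M} (h : m.IsNF x) : m.IsNF (x * m.s) := by
  rcases h with rfl | ⟨K, u, ⟨l, j⟩, hu, hv, rfl⟩
  · exact Or.inl (m.hz _).2
  · by_cases hl : Ok K (l + 1)
    · rcases Int.even_or_odd' j with ⟨i, rfl | rfl⟩
      · exact Or.inr ⟨K, u, (l + 1, i), hu, hl, m.N_s_even u i⟩
      · exact Or.inl (m.N_s_odd u hl i)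
    · cases K with
      | none => exact absurd (ok_none _) hl
      | some n =>
        have hln : l = n := by
          rw [ok_some] at hl
          have := ok_some.mp hv
          simp only at this
          omega
        subst hln
        refine Or.inr ⟨some (l + 1), (u.1, u.2 - 2 ^ (l - u.1) * j), (l + 1, 0), ?_, ?_,
          m.N_s_top l u (ok_some.mp hu) j⟩
        · exact ok_some.mpr ((ok_some.mp hu).trans (Nat.le_succ _))
        · exact ok_some.mpr le_rfl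

lemma isNF_sinv {x : M} (h : m.IsNF x) : m.IsNF (x * m.s⁻¹) := by
  rcases h with rfl | ⟨K, u, ⟨l, j⟩, hu, hv, rfl⟩
  · exact Or.inl (m.hz _).2
  · cases l with
    | succ l => exact Or.inr ⟨K, u, (l, 2 * j), hu, hv.mono (Nat.le_succ _), m.N_sinv u hv j⟩
    | zero =>
      refine Or.inr ⟨K.map (· + 1), (u.1 + 1, u.2), (0, 2 * j), ?_, ok_zero _,
        m.N_sinv_bot K u j⟩
      cases K with
      | none => exact ok_none _
      | some n => exact ok_some.mpr (Nat.succ_le_succ (ok_some.mp hu))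

lemma isNF_e {x : M} (h : m.IsNF x) : m.IsNF (x * m.e) := by
  rcases h with rfl | ⟨K, u, ⟨l, j⟩, hu, hv, rfl⟩
  · exact Or.inl (m.hz _).2
  · by_cases hj : j = 0
    · subst hj
      exact Or.inr ⟨none, u, (l, 0), ok_none _, ok_none _, m.N_e_zero K u l⟩
    · obtain ⟨i, k, rfl⟩ := exists_two_pow_odd j hj
      by_cases hl : Ok K (l + i + 1)
      · exact Or.inl (m.N_e_conflict u hl k)
      · cases K with
        | none => exact absurd (ok_none _) hl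
        | some n =>
          rw [ok_some] at hl hv hu
          simp only at hv
          -- `2^{n-l}` divides the position
          have h1 : (2 : ℤ) ^ i * (2 * k + 1) = 2 ^ (n - l) * (2 ^ (i - (n - l)) * (2 * k + 1)) := by
            rw [← mul_assoc, ← pow_add]; congr 2; omega
          set q : ℤ := 2 ^ (i - (n - l)) * (2 * k + 1) with hq
          have h2 : m.N (some n) u (l, 2 ^ (n - l) * q) =
              m.N (some n) (u.1, u.2 - 2 ^ (n - u.1) * q) (l, 0) := by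
            unfold N
            rw [← m.w_inv_a u hu]
            have e1 : m.w (l, 2 ^ (n - l) * q) = ((m.a ^ (2 ^ n * q) : Mˣ) : M) * m.w (l, 0) := by
              unfold w
              simp only [zpow_zero, Units.val_one, mul_one]
              rw [m.sl_a, ← mul_assoc (2 ^ l : ℤ), ← pow_add]
              have : l + (n - l) = n := by omega
              rw [this]
            rw [e1]
            calc (m.w u)⁻¹ * m.E (some n) * (((m.a ^ (2 ^ n * q) : Mˣ) : M) * m.w (l, 0))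
                = (m.w u)⁻¹ * (m.E (some n) * ((m.a ^ (2 ^ n * q) : Mˣ) : M)) * m.w (l, 0) := by
                  simp only [mul_assoc]
              _ = _ := by rw [m.E_comm]; simp only [mul_assoc]
          rw [h1, h2, m.N_e_zero]
          exact Or.inr ⟨none, _, _, ok_none _, ok_none _, rfl⟩

lemma isNF_one : m.IsNF 1 := by
  refine Or.inr ⟨some 0, (0, 0), (0, 0), ok_some.mpr le_rfl, ok_some.mpr le_rfl, ?_⟩
  have h1 : (1 : M)⁻¹ = 1 := inv_of_idem (one_mul 1)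
  simp [N, w, E, h1]

end Model

end Pool.Agent.H.MP_8b7a64_al
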