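import Mathlib

/-!
# Presented inverse monoids, Schützenberger graphs, hyperbolicity, quasi-isometries
-/

namespace Pool.Agent.H.MP_8b7a64_al

/-- The formal inverse of a word over `A ∪ A⁻¹`; the letter `(a, true)` is `a` and the letter
`(a, false)` is `a⁻¹`. -/
def invWord {A : Type} (w : FreeMonoid (A × Bool)) : FreeMonoid (A × Bool) :=
  FreeMonoid.ofList (((FreeMonoid.toList w).map (fun x => (x.1, !x.2))).reverse)

/-- The defining relations of `Inv⟨A ∣ R⟩`: the Vagner relations
`w w⁻¹ w = w` and `w w⁻¹ u u⁻¹ = u u⁻¹ w w⁻¹` for all words, and the relations in `R`. -/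
inductive InvRel {A : Type} (R : Set (FreeMonoid (A × Bool) × FreeMonoid (A × Bool))) :
    FreeMonoid (A × Bool) → FreeMonoid (A × Bool) → Prop
  | inv (w : FreeMonoid (A × Bool)) : InvRel R (w * invWord w * w) w
  | comm (w u : FreeMonoid (A × Bool)) :
      InvRel R (w * invWord w * (u * invWord u)) (u * invWord u * (w * invWord w))
  | rel (r s : FreeMonoid (A × Bool)) (h : (r, s) ∈ R) : InvRel R r s

/-- The inverse monoid `Inv⟨A ∣ R⟩` presented by the generators `A` and the relations `R`. -/
abbrev PresInv (A : Type) (R : Set (FreeMonoid (A × Bool) × FreeMonoid (A × Bool))) : Type :=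
  (conGen (InvRel R)).Quotient

/-- A monoid is an inverse monoid if every `s` has a unique `t` with `sts = s` and
`tst = t`. -/
def IsInverseMonoid (M : Type) [Monoid M] : Prop :=
  ∀ s : M, ∃! t : M, s * t * s = s ∧ t * s * t = t

section Graph

variable {A : Type} (R : Set (FreeMonoid (A × Bool) × FreeMonoid (A × Bool)))

/-- The element of `Inv⟨A ∣ R⟩` represented by a letter of `A ∪ A⁻¹`. -/
def gen (x : A × Bool) : PresInv A R := ((FreeMonoid.of x : FreeMonoid (A × Bool)) : PresInv A R)

/-- `m → n` is an edge of the Cayley graph: `n = m x` for a letter `x ∈ A ∪ A⁻¹`. -/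
def Edge (m n : PresInv A R) : Prop := ∃ x : A × Bool, n = m * gen R x

/-- `m` and `n` lie in the same strongly connected component of the Cayley graph. -/
def StronglyConnected (m n : PresInv A R) : Prop :=
  Relation.ReflTransGen (Edge R) m n ∧ Relation.ReflTransGen (Edge R) n m

/-- The Schützenberger graph of `m`, i.e. the strongly connected component of `m` in the Cayley
graph, as an undirected graph (its edges occur in inverse pairs; loops and multiplicities are
irrelevant for the path metric). -/
def schGraph (m : PresInv A R) : SimpleGraph {n : PresInv A R // StronglyConnected R m n} where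
  Adj p q := p ≠ q ∧ (Edge R p.1 q.1 ∨ Edge R q.1 p.1)
  symm := ⟨fun _ _ h => ⟨h.1.symm, h.2.symm⟩⟩
  loopless := ⟨fun _ h => h.1 rfl⟩

end Graph

/-- The path metric of a graph on its vertices is `δ`-hyperbolic (Gromov's four point
condition). -/
def IsHyperbolic {X : Type} (G : SimpleGraph X) (δ : ℝ) : Prop :=
  ∀ x y z w : X, (G.dist x y : ℝ) + G.dist z w ≤
    max ((G.dist x z : ℝ) + G.dist y w) ((G.dist x w : ℝ) + G.dist y z) + 2 * δ

/-- Quasi-isometric embeddings, with respect to distance functions `dX` and `dY`. -/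
def IsQIEmbedding {X Y : Type} (dX : X → X → ℝ) (dY : Y → Y → ℝ) (f : X → Y) : Prop :=
  ∃ L C : ℝ, 1 ≤ L ∧ 0 ≤ C ∧ ∀ x x' : X,
    dX x x' / L - C ≤ dY (f x) (f x') ∧ dY (f x) (f x') ≤ L * dX x x' + C

/-- Quasi-isometries. -/
def IsQI {X Y : Type} (dX : X → X → ℝ) (dY : Y → Y → ℝ) (f : X → Y) : Prop :=
  IsQIEmbedding dX dY f ∧ ∃ C : ℝ, ∀ y : Y, ∃ x : X, dY y (f x) ≤ C

/-- The graph `G`, with its path metric, is quasi-isometric to a tree. -/
def QITree {X : Type} (G : SimpleGraph X) : Prop :=
  ∃ (W : Type) (T : SimpleGraph W) (f : X → W), T.IsTree ∧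
    IsQI (fun x y => (G.dist x y : ℝ)) (fun x y => (T.dist x y : ℝ)) f

/-- The graph `G`, with its path metric, contains a quasi-isometric image of the hyperbolic
plane. -/
def ContainsQIPlane {X : Type} (G : SimpleGraph X) : Prop :=
  ∃ f : UpperHalfPlane → X,
    IsQIEmbedding (fun x y : UpperHalfPlane => dist x y) (fun x y => (G.dist x y : ℝ)) f

end Pool.Agent.H.MP_8b7a64_al
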