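import Pool.Agent.H.MP_8b7a64_al.Presentation

/-!
# The Schützenberger graphs of the example are truncated horoballs
-/

namespace Pool.Agent.H.MP_8b7a64_al

/-- Reading a word from a vertex. -/
noncomputable def run (K : Option ℕ) : List (Gen × Bool) → ℕ × ℤ → Option (ℕ × ℤ)
  | [], v => some v
  | x :: w, v => (step K x v).bind (run K w)

lemma run_append (K : Option ℕ) (w u : List (Gen × Bool)) (v : ℕ × ℤ) :
    run K (w ++ u) v = (run K w v).bind (run K u) := by
  induction w generalizing v with
  | nil => rfl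
  | cons x w ih =>
    simp only [List.cons_append, run]
    cases step K x v with
    | none => rfl
    | some v' => exact ih v'

lemma run_inv {K : Option ℕ} {w : List (Gen × Bool)} {v v' : ℕ × ℤ}
    (h : run K w v = some v') :
    run K ((w.map (fun x => (x.1, !x.2))).reverse) v' = some v := by
  induction w generalizing v with
  | nil =>
    simp only [run, Option.some.injEq] at h
    subst h; rfl
  | cons x w ih =>
    simp only [run] at h
    cases h1 : step K x v with
    | none => rw [h1] at h; simp at h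
    | some v1 =>
      rw [h1] at h
      simp only [Option.bind_some] at h
      rw [List.map_cons, List.reverse_cons, run_append, ih h]
      simp only [Option.bind_some, run]
      rw [step_inv h1]
      rfl

/-- The run along an element of the free monoid. -/
noncomputable def runW (K : Option ℕ) (w : FreeMonoid (Gen × Bool)) : ℕ × ℤ → Option (ℕ × ℤ) :=
  run K (FreeMonoid.toList w)

lemma runW_mul (K : Option ℕ) (w u : FreeMonoid (Gen × Bool)) (v : ℕ × ℤ) :
    runW K (w * u) v = (runW K w v).bind (runW K u) := run_append K _ _ v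

lemma runW_one (K : Option ℕ) (v : ℕ × ℤ) : runW K 1 v = some v := rfl

lemma runW_of (K : Option ℕ) (x : Gen × Bool) (v : ℕ × ℤ) :
    runW K (FreeMonoid.of x) v = step K x v := by
  change (step K x v).bind (run K []) = step K x v
  cases step K x v <;> rfl

lemma runW_inv {K : Option ℕ} {w : FreeMonoid (Gen × Bool)} {v v' : ℕ × ℤ}
    (h : runW K w v = some v') : runW K (invWord w) v' = some v := run_inv h

lemma runW_mul_inv (K : Option ℕ) (w : FreeMonoid (Gen × Bool)) (v : ℕ × ℤ) :
    runW K (w * invWord w) v = (runW K w v).map (fun _ => v) := by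
  rw [runW_mul]
  cases h : runW K w v with
  | none => rfl
  | some v' => exact runW_inv h

/-- The congruence of words acting in the same way on all truncated horoballs. -/
def actCon : Con (FreeMonoid (Gen × Bool)) where
  r w u := ∀ K v, runW K w v = runW K u v
  iseqv := ⟨fun _ _ _ => rfl, fun h K v => (h K v).symm, fun h h' K v => (h K v).trans (h' K v)⟩
  mul' := by
    intro w x y z h1 h2 K v
    rw [runW_mul, runW_mul, h1 K v]
    cases runW K x v with
    | none => rfl
    | some v' => exact h2 K v'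

lemma actCon_rels : ∀ p ∈ rels, actCon p.1 p.2 := by
  intro p hp K v
  obtain ⟨l, j⟩ := v
  simp only [rels, Set.mem_insert_iff, Set.mem_singleton_iff] at hp
  have hz : runW K (pos Gen.z) = fun _ => none := funext fun v => by rw [runW_of]; rfl
  have ha : runW K (pos Gen.a) = fun v => some (v.1, v.2 + 1) :=
    funext fun v => by rw [runW_of]; rfl
  have ha' : runW K (neg Gen.a) = fun v => some (v.1, v.2 + -1) :=
    funext fun v => by rw [runW_of]; rfl
  have hs : runW K (pos Gen.s) = stepS K := funext fun v => by rw [runW_of]; rfl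
  have hs' : runW K (neg Gen.s) = stepS' K := funext fun v => by rw [runW_of]; rfl
  have he : runW K (pos Gen.e) = stepE K := funext fun v => by rw [runW_of]; rfl
  have ht : runW K (pos Gen.t) = fun v => stepS K (v.1, v.2 + 1) :=
    funext fun v => by rw [runW_of]; rfl
  rcases hp with rfl | rfl | rfl | rfl | rfl | rfl | rfl | rfl | rfl | rfl | rfl | rfl | rfl |
    rfl | rfl
  · simp [runW_mul, ha, ha', runW_one]
  · simp [runW_mul, ha, ha', runW_one]
  · -- s a = a a s
    simp only [runW_mul, ha, hs, Option.bind_some]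
    apply Option.ext
    rintro ⟨l', j'⟩
    rw [stepS_eq, Option.bind_eq_some_iff]
    constructor
    · rintro ⟨⟨l2, j2⟩, h1, h2⟩
      rw [stepS_eq] at h1
      simp only [Option.some.injEq, Prod.mk.injEq] at h1 h2 ⊢
      exact ⟨h1.1, by omega, by omega⟩
    · rintro ⟨h1, h2, h3⟩
      simp only at h1 h2 h3
      refine ⟨(l', j' - 1), ?_, ?_⟩
      · rw [stepS_eq]
        exact ⟨h1, h2, by simp only; omega⟩
      · simp
  · simp only [runW_mul, ha, hs, ht, Option.bind_some]
  · -- e e = e
    simp only [runW_mul, he]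
    apply Option.ext
    rintro ⟨l', j'⟩
    rw [stepE_eq, Option.bind_eq_some_iff]
    constructor
    · rintro ⟨⟨l2, j2⟩, h1, h2⟩
      rw [stepE_eq] at h1 h2
      exact ⟨h1.1, h1.2.1, h2.2.2.trans h1.2.2⟩
    · rintro ⟨h1, h2, h3⟩
      refine ⟨(l, j), ?_, ?_⟩
      · rw [stepE_eq]; exact ⟨h1, h2, rfl⟩
      · rw [stepE_eq]; exact ⟨h1, h2, h3⟩
  · -- e s = s e
    simp only [runW_mul, he, hs]
    apply Option.ext
    rintro ⟨l', j'⟩
    rw [Option.bind_eq_some_iff, Option.bind_eq_some_iff]
    constructor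
    · rintro ⟨⟨l2, j2⟩, h1, h2⟩
      rw [stepE_eq] at h1
      rw [stepS_eq] at h2
      simp only [Prod.mk.injEq] at h1 h2
      obtain ⟨h1, h3, rfl, rfl⟩ := h1
      refine ⟨(l', j'), ?_, ?_⟩
      · rw [stepS_eq]; exact h2
      · rw [stepE_eq]; exact ⟨h1, by simp only; omega, rfl⟩
    · rintro ⟨⟨l2, j2⟩, h1, h2⟩
      rw [stepS_eq] at h1
      rw [stepE_eq] at h2
      simp only [Prod.mk.injEq] at h1 h2
      obtain ⟨h2, h3, rfl, rfl⟩ := h2
      refine ⟨(l, j), ?_, ?_⟩
      · rw [stepE_eq]; exact ⟨h2, by simp only; omega, rfl⟩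
      · rw [stepS_eq]; exact h1
  · -- e s s⁻¹ = e
    simp only [runW_mul, he, hs, hs']
    apply Option.ext
    rintro ⟨l', j'⟩
    simp only [Option.bind_eq_some_iff]
    constructor
    · rintro ⟨⟨l3, j3⟩, ⟨⟨l2, j2⟩, h1, h2⟩, h3⟩
      rw [stepS_eq] at h2
      rw [stepS'_eq] at h3
      rw [stepE_eq] at h1 ⊢
      simp only [Prod.mk.injEq] at h1 h2 h3 ⊢
      exact ⟨h1.1, h1.2.1, by omega, by omega⟩
    · intro h
      rw [stepE_eq] at h
      simp only [Prod.mk.injEq] at h
      obtain ⟨h1, h2, rfl, rfl⟩ := h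
      refine ⟨(l' + 1, 0), ⟨(l', j'), ?_, ?_⟩, ?_⟩
      · rw [stepE_eq]; exact ⟨h1, h2, rfl⟩
      · rw [stepS_eq]; exact ⟨h1 ▸ ok_none _, rfl, by simp only; omega⟩
      · rw [stepS'_eq]; exact ⟨h1 ▸ ok_none _, rfl, by simp only; omega⟩
  · -- s s⁻¹ a s s⁻¹ = z
    simp only [runW_mul, hz, hs, hs', ha]
    apply Option.eq_none_iff_forall_ne_some.mpr
    rintro ⟨l', j'⟩ h
    simp only [Option.bind_eq_some_iff] at h
    obtain ⟨⟨l5, j5⟩, ⟨⟨l4, j4⟩, ⟨⟨l3, j3⟩, ⟨⟨l2, j2⟩, h1, h2⟩, h3⟩, h4⟩, h5⟩ := h
    rw [stepS_eq] at h1 h4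
    rw [stepS'_eq] at h2
    simp only [Option.some.injEq, Prod.mk.injEq] at h1 h2 h3 h4
    omega
  · simp [runW_mul, hz]
  · simp [runW_mul, hz, ha]
  · simp [runW_mul, hz]
  · simp only [runW_mul, hz, hs]
    cases stepS K (l, j) <;> rfl
  · simp [runW_mul, hz]
  · simp only [runW_mul, hz, he]
    cases stepE K (l, j) <;> rfl
  · simp [runW_mul, hz]

lemma invRel_le_actCon : conGen (InvRel rels) ≤ actCon := by
  rw [Con.conGen_le]
  intro x y h
  induction h with
  | inv w =>
    intro K v
    rw [runW_mul, runW_mul_inv]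
    cases h : runW K w v with
    | none => rfl
    | some v' => exact h
  | comm w u =>
    intro K v
    rw [runW_mul K (w * invWord w), runW_mul K (u * invWord u), runW_mul_inv, runW_mul_inv]
    cases h : runW K w v with
    | none =>
      cases h2 : runW K u v with
      | none => rfl
      | some v2 =>
        simp only [Option.map_none, Option.bind_none, Option.map_some, Option.bind_some]
        rw [runW_mul_inv, h]; rfl
    | some v1 =>
      cases h2 : runW K u v with
      | none =>
        simp only [Option.map_none, Option.bind_none, Option.map_some, Option.bind_some]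
        rw [runW_mul_inv, h2]; rfl
      | some v2 =>
        simp only [Option.map_some, Option.bind_some]
        rw [runW_mul_inv, runW_mul_inv, h, h2]
        rfl
  | rel r s h => exact actCon_rels (r, s) h

/-- The action of the example on the horoball of height `K`. -/
noncomputable def act (K : Option ℕ) (x : X) : ℕ × ℤ → Option (ℕ × ℤ) :=
  Con.liftOn x (fun w => runW K w) (fun _ _ h => funext fun v => invRel_le_actCon h K v)

lemma act_cl (K : Option ℕ) (w : FreeMonoid (Gen × Bool)) : act K (cl rels w) = runW K w := rfl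

lemma act_mul (K : Option ℕ) (x y : X) (v : ℕ × ℤ) :
    act K (x * y) v = (act K x v).bind (act K y) := by
  obtain ⟨w, rfl⟩ := cl_surj x
  obtain ⟨u, rfl⟩ := cl_surj y
  rw [← map_mul, act_cl, act_cl, act_cl]
  exact runW_mul K w u v

lemma act_one (K : Option ℕ) (v : ℕ × ℤ) : act K (1 : X) v = some v := rfl

lemma act_gen (K : Option ℕ) (x : Gen × Bool) (v : ℕ × ℤ) :
    act K (gen rels x) v = step K x v := runW_of K x v

lemma act_inv {K : Option ℕ} {x : X} {v v' : ℕ × ℤ} (h : act K x v = some v') :
    act K x⁻¹ v' = some v := by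
  obtain ⟨w, rfl⟩ := cl_surj x
  exact runW_inv h

lemma act_spow {K : Option ℕ} {l : ℕ} (h : Ok K l) :
    act K (model.s ^ l) (0, 0) = some (l, 0) := by
  induction l with
  | zero => rfl
  | succ l ih =>
    rw [pow_succ, act_mul, ih (h.mono (Nat.le_succ _))]
    simp only [Option.bind_some]
    change act K (gen rels (Gen.s, true)) (l, 0) = _
    rw [act_gen]
    change stepS K (l, 0) = _
    rw [stepS_eq]
    exact ⟨h, rfl, rfl⟩

lemma act_apow (K : Option ℕ) (l : ℕ) (j i : ℤ) :
    act K ((model.a ^ i : Xˣ) : X) (l, j) = some (l, j + i) := by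
  induction i using Int.induction_on with
  | zero => simp [act_one]
  | succ i ih =>
    rw [zpow_add_one, Units.val_mul, act_mul, ih]
    simp only [Option.bind_some]
    change act K (gen rels (Gen.a, true)) _ = _
    rw [act_gen]
    simp [step]; ring
  | pred i ih =>
    rw [zpow_sub_one, Units.val_mul, act_mul, ih]
    simp only [Option.bind_some]
    change act K (gen rels (Gen.a, false)) _ = _
    rw [act_gen]
    simp [step]; ring

lemma act_w {K : Option ℕ} {v : ℕ × ℤ} (h : Ok K v.1) : act K (model.w v) (0, 0) = some v := by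
  unfold Model.w
  rw [act_mul, act_spow h]
  simp only [Option.bind_some]
  rw [act_apow]
  simp

lemma act_E (K : Option ℕ) : act K (model.E K) (0, 0) = some (0, 0) := by
  cases K with
  | none =>
    change act none (gen rels (Gen.e, true)) (0, 0) = _
    rw [act_gen]
    change stepE none (0, 0) = _
    rw [stepE_eq]
    exact ⟨rfl, rfl, rfl⟩
  | some n =>
    change act (some n) (model.s ^ n * (model.s ^ n)⁻¹) (0, 0) = _
    have h := act_spow (ok_some.mpr (le_refl n))
    rw [act_mul, h]
    simp only [Option.bind_some]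
    exact act_inv h

lemma act_N {K : Option ℕ} {u v : ℕ × ℤ} (hu : Ok K u.1) (hv : Ok K v.1) :
    act K (model.N K u v) u = some v := by
  unfold Model.N
  rw [act_mul, act_mul, act_inv (act_w hu)]
  simp only [Option.bind_some]
  rw [act_E]
  simp only [Option.bind_some]
  exact act_w hv

/-- One step inside a horoball. -/
lemma N_step {K : Option ℕ} (u : ℕ × ℤ) {v v' : ℕ × ℤ} {x : Gen × Bool} (hv : Ok K v.1)
    (h : step K x v = some v') :
    model.N K u v * gen rels x = model.N K u v' ∧ Ok K v'.1 := by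
  obtain ⟨l, j⟩ := v
  obtain ⟨l', j'⟩ := v'
  obtain ⟨g, b⟩ := x
  have h1 := model.N_a K u l j 1
  have h2 := model.N_a K u l j (-1)
  rw [model_a] at h1
  rw [model_a_neg] at h2
  have hs : ∀ j j', stepS K (l, j) = some (l', j') →
      model.N K u (l, j) * g' Gen.s = model.N K u (l', j') ∧ Ok K l' := by
    intro j j' h
    rw [stepS_eq] at h
    obtain ⟨h3, h4, h5⟩ := h
    simp only at h3 h4 h5
    subst h4 h5
    exact ⟨model.N_s_even u j', h3⟩
  have hs' : ∀ j j', stepS' K (l, j) = some (l', j') →
      model.N K u (l, j) * (g' Gen.s)⁻¹ = model.N K u (l', j') ∧ Ok K l' := by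
    intro j j' h
    rw [stepS'_eq] at h
    obtain ⟨h3, h4, h5⟩ := h
    simp only at h3 h4 h5
    subst h4 h5
    exact ⟨model.N_sinv u h3 j, h3.mono (Nat.le_succ _)⟩
  cases g with
  | a =>
    cases b with
    | true =>
      simp only [step, Option.some.injEq, Prod.mk.injEq] at h
      obtain ⟨rfl, rfl⟩ := h
      exact ⟨h1, hv⟩
    | false =>
      simp only [step, Option.some.injEq, Prod.mk.injEq] at h
      obtain ⟨rfl, rfl⟩ := h
      exact ⟨h2, hv⟩
  | s =>
    cases b with
    | true => exact hs _ _ h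
    | false => exact hs' _ _ h
  | t =>
    cases b with
    | true =>
      change stepS K (l, j + 1) = some (l', j') at h
      have h3 := hs _ _ h
      refine ⟨?_, h3.2⟩
      change model.N K u (l, j) * g' Gen.t = _
      rw [r_t, ← mul_assoc, h1]
      exact h3.1
    | false =>
      change (stepS' K (l, j)).map (fun v => (v.1, v.2 + -1)) = some (l', j') at h
      rw [Option.map_eq_some_iff] at h
      obtain ⟨⟨l2, j2⟩, h3, h4⟩ := h
      simp only [Prod.mk.injEq] at h4
      obtain ⟨rfl, rfl⟩ := h4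
      have h5 := hs' _ _ h3
      refine ⟨?_, h5.2⟩
      change model.N K u (l, j) * (g' Gen.t)⁻¹ = _
      rw [r_t, mir, ← mul_assoc, h5.1]
      have h6 := model.N_a K u l2 j2 (-1)
      rw [model_a_neg] at h6
      exact h6
  | e =>
    have he : stepE K (l, j) = some (l', j') := by cases b <;> exact h
    have hg : gen rels (Gen.e, b) = g' Gen.e := by
      cases b with
      | true => rfl
      | false => rw [gen_false, e_inv]
    rw [stepE_eq] at he
    simp only [Prod.mk.injEq] at he
    obtain ⟨rfl, rfl, rfl, rfl⟩ := he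
    rw [hg]
    exact ⟨model.N_e_zero none u l', ok_none _⟩
  | z =>
    have : step K (Gen.z, b) (l, j) = none := by cases b <;> rfl
    rw [this] at h
    exact absurd h (by simp)

lemma N_act {K : Option ℕ} (u : ℕ × ℤ) (y : X) : ∀ {v v' : ℕ × ℤ}, Ok K v.1 →
    act K y v = some v' → model.N K u v * y = model.N K u v' ∧ Ok K v'.1 := by
  induction y using word_induction with
  | h1 =>
    intro v v' hv h
    rw [act_one, Option.some.injEq] at h
    subst h
    exact ⟨mul_one _, hv⟩
  | h2 x y ih =>
    intro v v' hv h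
    rw [act_mul, act_gen, Option.bind_eq_some_iff] at h
    obtain ⟨v1, h1, h2⟩ := h
    have h3 := N_step u hv h1
    have h4 := ih h3.2 h2
    exact ⟨by rw [← mul_assoc, h3.1, h4.1], h4.2⟩

/-- Reachability in the Cayley graph is right divisibility. -/
lemma reach_iff (m n : X) : Relation.ReflTransGen (Edge rels) m n ↔ ∃ y, n = m * y := by
  constructor
  · intro h
    induction h with
    | refl => exact ⟨1, (mul_one _).symm⟩
    | tail _ h2 ih =>
      obtain ⟨y, rfl⟩ := ih
      obtain ⟨x, rfl⟩ := h2
      exact ⟨y * gen rels x, mul_assoc _ _ _⟩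
  · rintro ⟨y, rfl⟩
    induction y using word_induction_right with
    | h1 => rw [mul_one]
    | h2 x y ih =>
      refine ih.tail ?_
      exact ⟨x, by rw [mul_assoc]⟩

/-- Vertices of the horoball of height `K`. -/
abbrev Vt (K : Option ℕ) : Type := {v : ℕ × ℤ // Ok K v.1}

/-- The (truncated) horoball of height `K`. -/
def T (K : Option ℕ) : SimpleGraph (Vt K) where
  Adj p q := p ≠ q ∧ ∃ x, step K x p.1 = some q.1
  symm := ⟨fun _ _ h => ⟨h.1.symm, by
    obtain ⟨x, hx⟩ := h.2
    exact ⟨_, step_inv hx⟩⟩⟩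
  loopless := ⟨fun _ h => h.1 rfl⟩

lemma sc_N {K : Option ℕ} {u v : ℕ × ℤ} (hv : Ok K v.1) (v' : Vt K) :
    StronglyConnected rels (model.N K u v) (model.N K u v'.1) := by
  have key : ∀ {v v' : ℕ × ℤ}, Ok K v.1 → Ok K v'.1 →
      Relation.ReflTransGen (Edge rels) (model.N K u v) (model.N K u v') := by
    intro v v' h h'
    rw [reach_iff]
    refine ⟨(model.w v)⁻¹ * model.w v', ?_⟩
    have h1 := N_act u (model.w v)⁻¹ h (act_inv (act_w h))
    have h2 := N_act u (model.w v') (K := K) (v := (0, 0)) (ok_zero K) (act_w h')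
    rw [← mul_assoc, h1.1, h2.1]
  exact ⟨key hv v'.2, key v'.2 hv⟩

lemma sc_exists {K : Option ℕ} {u v : ℕ × ℤ} (hu : Ok K u.1) (hv : Ok K v.1) {n : X}
    (h : StronglyConnected rels (model.N K u v) n) : ∃ v' : Vt K, n = model.N K u v'.1 := by
  obtain ⟨h1, h2⟩ := h
  rw [reach_iff] at h1 h2
  obtain ⟨y, rfl⟩ := h1
  obtain ⟨y', h2⟩ := h2
  have h3 := act_N hu hv
  rw [h2, act_mul, act_mul, act_N hu hv, Option.bind_some, Option.bind_eq_some_iff] at h3
  obtain ⟨v', h4, _⟩ := h3
  have h5 := N_act u y hv h4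
  exact ⟨⟨v', h5.2⟩, h5.1⟩

lemma edge_N {K : Option ℕ} {u v v' : ℕ × ℤ} (hu : Ok K u.1) (hv : Ok K v.1) (hv' : Ok K v'.1) :
    Edge rels (model.N K u v) (model.N K u v') ↔ ∃ x, step K x v = some v' := by
  constructor
  · rintro ⟨x, hx⟩
    refine ⟨x, ?_⟩
    have h1 := act_N hu hv'
    rw [hx, act_mul, act_N hu hv, Option.bind_some, act_gen] at h1
    exact h1
  · rintro ⟨x, hx⟩
    exact ⟨x, (N_step u hv hx).1.symm⟩

lemma N_injective {K : Option ℕ} {u v v' : ℕ × ℤ} (hu : Ok K u.1) (hv : Ok K v.1)
    (hv' : Ok K v'.1) (h : model.N K u v = model.N K u v') : v = v' := by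
  have h1 := act_N hu hv
  rw [h, act_N hu hv'] at h1
  exact (Option.some.inj h1).symm

/-- The Schützenberger graph of a nonzero element is a truncated horoball. -/
noncomputable def schIso {K : Option ℕ} {u v : ℕ × ℤ} (hu : Ok K u.1) (hv : Ok K v.1) :
    T K ≃g schGraph rels (model.N K u v) where
  toEquiv := Equiv.ofBijective
    (fun v' => ⟨model.N K u v'.1, sc_N hv v'⟩)
    ⟨fun p q h => Subtype.ext (N_injective hu p.2 q.2 (congrArg Subtype.val h)),
      fun n => by
        obtain ⟨v', hv'⟩ := sc_exists hu hv n.2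
        exact ⟨v', Subtype.ext hv'.symm⟩⟩
  map_rel_iff' := by
    intro p q
    change (_ ∧ (Edge rels (model.N K u p.1) (model.N K u q.1) ∨
      Edge rels (model.N K u q.1) (model.N K u p.1))) ↔ (p ≠ q ∧ ∃ x, step K x p.1 = some q.1)
    rw [edge_N hu p.2 q.2, edge_N hu q.2 p.2]
    constructor
    · rintro ⟨h1, h2⟩
      refine ⟨fun h => h1 (by rw [h]), ?_⟩
      rcases h2 with h2 | ⟨x, hx⟩
      · exact h2
      · exact ⟨_, step_inv hx⟩
    · rintro ⟨h1, h2⟩
      refine ⟨fun h => h1 ?_, Or.inl h2⟩
      exact Subtype.ext (N_injective hu p.2 q.2 (congrArg Subtype.val h))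

/-- The Schützenberger graph of the zero is a point. -/
lemma sch_zero (p q : {n : X // StronglyConnected rels model.z n}) : p = q := by
  have key : ∀ n : X, StronglyConnected rels model.z n → n = model.z := by
    intro n hn
    obtain ⟨h1, _⟩ := hn
    rw [reach_iff] at h1
    obtain ⟨y, rfl⟩ := h1
    exact (zero_all y).2
  exact Subtype.ext ((key _ p.2).trans (key _ q.2).symm)

end Pool.Agent.H.MP_8b7a64_al
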