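import Pool.Agent.H.MP_8b7a64_al.Defs

/-!
# Elementary theory of presented inverse monoids
-/

namespace Pool.Agent.H.MP_8b7a64_al

/-- Monoids with an inversion satisfying the axioms of inverse monoids. -/
class InvMon (M : Type) extends Monoid M, Inv M where
  mul_inv_mul : ∀ x : M, x * x⁻¹ * x = x
  inv_inv' : ∀ x : M, x⁻¹⁻¹ = x
  mul_inv_rev' : ∀ x y : M, (x * y)⁻¹ = y⁻¹ * x⁻¹
  idem_comm : ∀ x y : M, x * x⁻¹ * (y * y⁻¹) = y * y⁻¹ * (x * x⁻¹)

section InvMon

variable {M : Type} [InvMon M]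

lemma xix (x : M) : x * x⁻¹ * x = x := InvMon.mul_inv_mul x
lemma ii (x : M) : x⁻¹⁻¹ = x := InvMon.inv_inv' x
lemma mir (x y : M) : (x * y)⁻¹ = y⁻¹ * x⁻¹ := InvMon.mul_inv_rev' x y
lemma icomm (x y : M) : x * x⁻¹ * (y * y⁻¹) = y * y⁻¹ * (x * x⁻¹) := InvMon.idem_comm x y

lemma ixi (x : M) : x⁻¹ * x * x⁻¹ = x⁻¹ := by
  have := xix x⁻¹
  rwa [ii] at this

/-- `x⁻¹ x` commutes with `y y⁻¹`. -/
lemma icomm' (x y : M) : x⁻¹ * x * (y * y⁻¹) = y * y⁻¹ * (x⁻¹ * x) := by
  have := icomm x⁻¹ y
  rwa [ii] at this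

lemma inv_unique {x p q : M} (h1 : x * p * x = x) (h2 : p * x * p = p) (h3 : x * q * x = x)
    (h4 : q * x * q = q) (hc1 : x * p * (x * q) = x * q * (x * p))
    (hc2 : p * x * (q * x) = q * x * (p * x)) : p = q := by
  calc p = p * x * p := h2.symm
    _ = p * (x * q * x) * p := by rw [h3]
    _ = p * x * (q * x) * p := by simp only [mul_assoc]
    _ = q * x * (p * x) * p := by rw [hc2]
    _ = q * x * (p * x * p) := by simp only [mul_assoc]
    _ = q * x * p := by rw [h2]
    _ = q * x * q * (x * p) := by rw [h4, ← mul_assoc]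
    _ = q * (x * q * (x * p)) := by simp only [mul_assoc]
    _ = q * (x * p * (x * q)) := by rw [hc1]
    _ = q * (x * p * x) * q := by simp only [mul_assoc]
    _ = q * x * q := by rw [h1]
    _ = q := h4

/-- An idempotent is its own inverse. -/
lemma inv_of_idem {e : M} (he : e * e = e) : e⁻¹ = e := by
  have hinv : e⁻¹ * e⁻¹ = e⁻¹ := by rw [← mir, he]
  have h1 : e⁻¹ = e * e⁻¹ * (e⁻¹ * e) := by
    calc e⁻¹ = e⁻¹ * e * e⁻¹ := (ixi e).symm
      _ = e⁻¹ * (e * e) * e⁻¹ := by rw [he]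
      _ = e⁻¹ * e * (e * e⁻¹) := by simp only [mul_assoc]
      _ = e * e⁻¹ * (e⁻¹ * e) := icomm' e e
  have h2 : e * e⁻¹ = e⁻¹ := by
    calc e * e⁻¹ = e * (e * e⁻¹ * (e⁻¹ * e)) := by rw [← h1]
      _ = (e * e) * e⁻¹ * (e⁻¹ * e) := by simp only [mul_assoc]
      _ = e * e⁻¹ * (e⁻¹ * e) := by rw [he]
      _ = e⁻¹ := h1.symm
  have h3 : e⁻¹ * e = e⁻¹ := by
    calc e⁻¹ * e = (e * e⁻¹ * (e⁻¹ * e)) * e := by rw [← h1]
      _ = e * e⁻¹ * (e⁻¹ * (e * e)) := by simp only [mul_assoc]
      _ = e * e⁻¹ * (e⁻¹ * e) := by rw [he]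
      _ = e⁻¹ := h1.symm
  calc e⁻¹ = e⁻¹ * e := h3.symm
    _ = e * e⁻¹ * e := by rw [h2]
    _ = e := xix e

lemma idem_mul_comm {e f : M} (he : e * e = e) (hf : f * f = f) : e * f = f * e := by
  have h1 : e * e⁻¹ = e := by rw [inv_of_idem he, he]
  have h2 : f * f⁻¹ = f := by rw [inv_of_idem hf, hf]
  have := icomm e f
  rwa [h1, h2] at this

lemma idem_xi (x : M) : x * x⁻¹ * (x * x⁻¹) = x * x⁻¹ := by
  rw [← mul_assoc, xix]

lemma idem_ix (x : M) : x⁻¹ * x * (x⁻¹ * x) = x⁻¹ * x := by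
  rw [← mul_assoc, ixi]

lemma isInverseMonoid (M : Type) [InvMon M] : IsInverseMonoid M := by
  intro s
  refine ⟨s⁻¹, ⟨xix s, ixi s⟩, ?_⟩
  rintro t ⟨h1, h2⟩
  refine inv_unique h1 h2 (xix s) (ixi s) ?_ ?_
  · refine idem_mul_comm ?_ (idem_xi s)
    rw [← mul_assoc, h1]
  · refine idem_mul_comm ?_ (idem_ix s)
    rw [← mul_assoc, h2]

end InvMon

section Presented

variable {A : Type} {R : Set (FreeMonoid (A × Bool) × FreeMonoid (A × Bool))}

/-- The class of a word. -/
def cl (R : Set (FreeMonoid (A × Bool) × FreeMonoid (A × Bool))) :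
    FreeMonoid (A × Bool) →* PresInv A R := Con.mk' _

lemma cl_surj (x : PresInv A R) : ∃ w, cl R w = x := Con.mk'_surjective x

lemma cl_eq_of_rel {u v : FreeMonoid (A × Bool)} (h : InvRel R u v) : cl R u = cl R v :=
  (Con.eq _).mpr (ConGen.Rel.of _ _ h)

lemma invWord_mul (u v : FreeMonoid (A × Bool)) : invWord (u * v) = invWord v * invWord u := by
  unfold invWord
  rw [FreeMonoid.toList_mul, List.map_append, List.reverse_append, FreeMonoid.ofList_append]

lemma invWord_invWord (u : FreeMonoid (A × Bool)) : invWord (invWord u) = u := by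
  unfold invWord
  have h : ((fun x : A × Bool => (x.1, !x.2)) ∘ fun x : A × Bool => (x.1, !x.2)) = id := by
    funext x; simp
  simp only [FreeMonoid.toList_ofList, List.map_reverse, List.reverse_reverse, List.map_map]
  rw [h, List.map_id]
  rfl

lemma invWord_one : invWord (1 : FreeMonoid (A × Bool)) = 1 := rfl

lemma invWord_of (x : A × Bool) : invWord (FreeMonoid.of x) = FreeMonoid.of (x.1, !x.2) := rfl

lemma cl_inv_congr {u v : FreeMonoid (A × Bool)} (h : cl R u = cl R v) :
    cl R (invWord u) = cl R (invWord v) := by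
  have h1 : ∀ w : FreeMonoid (A × Bool), cl R w * cl R (invWord w) * cl R w = cl R w := by
    intro w
    rw [← map_mul, ← map_mul]
    exact cl_eq_of_rel (InvRel.inv w)
  have h2 : ∀ w : FreeMonoid (A × Bool),
      cl R (invWord w) * cl R w * cl R (invWord w) = cl R (invWord w) := by
    intro w
    have := h1 (invWord w)
    rwa [invWord_invWord] at this
  have h3 : ∀ w w' : FreeMonoid (A × Bool), cl R w * cl R (invWord w) *
      (cl R w' * cl R (invWord w')) = cl R w' * cl R (invWord w') *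
      (cl R w * cl R (invWord w)) := by
    intro w w'
    simp only [← map_mul]
    exact cl_eq_of_rel (InvRel.comm w w')
  have h4 : ∀ w w' : FreeMonoid (A × Bool), cl R (invWord w) * cl R w *
      (cl R (invWord w') * cl R w') = cl R (invWord w') * cl R w' *
      (cl R (invWord w) * cl R w) := by
    intro w w'
    have := h3 (invWord w) (invWord w')
    rwa [invWord_invWord, invWord_invWord] at this
  have e1 := h1 u
  have e2 := h2 u
  have e3 := h3 u v
  have e4 := h4 u v
  rw [h] at e1 e2 e3 e4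
  exact inv_unique' e1 e2 (h1 v) (h2 v) e3 e4
where
  inv_unique' {M : Type} [Monoid M] {x p q : M} (h1 : x * p * x = x) (h2 : p * x * p = p)
      (h3 : x * q * x = x)
      (h4 : q * x * q = q) (hc1 : x * p * (x * q) = x * q * (x * p))
      (hc2 : p * x * (q * x) = q * x * (p * x)) : p = q := by
    calc p = p * x * p := h2.symm
      _ = p * (x * q * x) * p := by rw [h3]
      _ = p * x * (q * x) * p := by simp only [mul_assoc]
      _ = q * x * (p * x) * p := by rw [hc2]
      _ = q * x * (p * x * p) := by simp only [mul_assoc]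
      _ = q * x * p := by rw [h2]
      _ = q * x * q * (x * p) := by rw [h4, ← mul_assoc]
      _ = q * (x * q * (x * p)) := by simp only [mul_assoc]
      _ = q * (x * p * (x * q)) := by rw [hc1]
      _ = q * (x * p * x) * q := by simp only [mul_assoc]
      _ = q * x * q := by rw [h1]
      _ = q := h4

/-- Inversion on `Inv⟨A ∣ R⟩`. -/
def pinv : PresInv A R → PresInv A R :=
  fun x => Con.liftOn x (fun w => cl R (invWord w)) (fun _ _ h => cl_inv_congr ((Con.eq _).mpr h))

lemma pinv_cl (w : FreeMonoid (A × Bool)) : pinv (cl R w) = cl R (invWord w) := rfl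

instance : InvMon (PresInv A R) where
  inv := pinv
  mul_inv_mul := by
    intro x
    obtain ⟨w, rfl⟩ := cl_surj x
    change cl R w * cl R (invWord w) * cl R w = cl R w
    rw [← map_mul, ← map_mul]
    exact cl_eq_of_rel (InvRel.inv w)
  inv_inv' := by
    intro x
    obtain ⟨w, rfl⟩ := cl_surj x
    change cl R (invWord (invWord w)) = cl R w
    rw [invWord_invWord]
  mul_inv_rev' := by
    intro x y
    obtain ⟨w, rfl⟩ := cl_surj x
    obtain ⟨u, rfl⟩ := cl_surj y
    change cl R (invWord (w * u)) = cl R (invWord u) * cl R (invWord w)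
    rw [invWord_mul, map_mul]
  idem_comm := by
    intro x y
    obtain ⟨w, rfl⟩ := cl_surj x
    obtain ⟨u, rfl⟩ := cl_surj y
    change cl R w * cl R (invWord w) * (cl R u * cl R (invWord u)) =
      cl R u * cl R (invWord u) * (cl R w * cl R (invWord w))
    simp only [← map_mul]
    exact cl_eq_of_rel (InvRel.comm w u)

lemma gen_eq (x : A × Bool) : gen R x = cl R (FreeMonoid.of x) := rfl

lemma gen_inv (a : A) (b : Bool) : (gen R (a, b))⁻¹ = gen R (a, !b) := rfl

end Presented

end Pool.Agent.H.MP_8b7a64_al
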