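import Pool.Agent.H.MP_8b7a64_al.Horoball

/-!
# The path metric of the truncated horoballs and uniform hyperbolicity
-/

namespace Pool.Agent.H.MP_8b7a64_al

/-- The position of the vertex above position `j`: `⌈j / 2⌉`. -/
def c (j : ℤ) : ℤ := (j + 1) / 2

/-- Horizontal distance after projection to level `H`. -/
def Nn (H : ℕ) (p q : ℕ × ℤ) : ℕ := (c^[H - p.1] p.2 - c^[H - q.1] q.2).natAbs

/-- Length of the path through level `H`. -/
def cost (H : ℕ) (p q : ℕ × ℤ) : ℕ := (H - p.1) + (H - q.1) + Nn H p q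

lemma c_contract (i j : ℤ) : (c i - c j).natAbs ≤ ((i - j).natAbs + 1) / 2 := by
  unfold c; omega

lemma c_iter_one (k : ℕ) (i j : ℤ) (h : (i - j).natAbs ≤ 1) :
    (c^[k] i - c^[k] j).natAbs ≤ 1 := by
  induction k generalizing i j with
  | zero => exact h
  | succ k ih =>
    rw [Function.iterate_succ_apply, Function.iterate_succ_apply]
    apply ih
    have := c_contract i j
    omega

lemma Nn_comm (H : ℕ) (p q : ℕ × ℤ) : Nn H p q = Nn H q p := by
  unfold Nn; rw [← Int.natAbs_neg]; congr 1; ring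

lemma cost_comm (H : ℕ) (p q : ℕ × ℤ) : cost H p q = cost H q p := by
  unfold cost; rw [Nn_comm]; omega

lemma Nn_triangle (H : ℕ) (p q r : ℕ × ℤ) : Nn H p q ≤ Nn H p r + Nn H r q := by
  unfold Nn; omega

lemma Nn_succ {H : ℕ} {p q : ℕ × ℤ} (hp : p.1 ≤ H) (hq : q.1 ≤ H) :
    Nn (H + 1) p q ≤ (Nn H p q + 1) / 2 := by
  unfold Nn
  rw [Nat.succ_sub hp, Nat.succ_sub hq, Function.iterate_succ_apply', Function.iterate_succ_apply']
  exact c_contract _ _

lemma Nn_mono_two {H H' : ℕ} (h : H ≤ H') {p q : ℕ × ℤ} (hp : p.1 ≤ H) (hq : q.1 ≤ H)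
    (h2 : Nn H p q ≤ 2) : Nn H' p q ≤ 2 := by
  induction H', h using Nat.le_induction with
  | base => exact h2
  | succ n hn ih =>
    have := Nn_succ (p := p) (q := q) (hp.trans hn) (hq.trans hn)
    omega

lemma Nn_halve {H : ℕ} (k : ℕ) {p q : ℕ × ℤ} (hp : p.1 ≤ H) (hq : q.1 ≤ H)
    (h : Nn H p q ≤ 2 ^ k) : Nn (H + k) p q ≤ 1 := by
  induction k generalizing H with
  | zero => simpa using h
  | succ k ih =>
    have h1 := Nn_succ (p := p) (q := q) hp hq
    have h2 : Nn (H + 1) p q ≤ 2 ^ k := by rw [pow_succ] at h; omega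
    have h3 := ih (hp.trans (Nat.le_succ _)) (hq.trans (Nat.le_succ _)) h2
    have e : H + (k + 1) = H + 1 + k := by ring
    rw [e]; exact h3

/-- Adjacent vertices. -/
lemma adj_cases {K : Option ℕ} {p q : Vt K} (h : (T K).Adj p q) :
    (q.1.1 = p.1.1 ∧ (q.1.2 - p.1.2).natAbs ≤ 1) ∨
      (q.1.1 = p.1.1 + 1 ∧ q.1.2 = c p.1.2) ∨ (p.1.1 = q.1.1 + 1 ∧ p.1.2 = c q.1.2) := by
  obtain ⟨⟨l, j⟩, hp⟩ := p
  obtain ⟨⟨l', j'⟩, hq⟩ := q
  obtain ⟨hne, ⟨g, b⟩, hx⟩ := h
  simp only at hx hp hq ⊢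
  have hs : ∀ j, stepS K (l, j) = some (l', j') → l' = l + 1 ∧ j = 2 * j' := by
    intro j h
    rw [stepS_eq] at h
    exact ⟨h.2.1, h.2.2⟩
  have hs' : ∀ l' j', stepS' K (l, j) = some (l', j') → l = l' + 1 ∧ j' = 2 * j := by
    intro l' j' h
    rw [stepS'_eq] at h
    exact ⟨h.2.1, h.2.2⟩
  unfold c
  cases g with
  | a =>
    left
    cases b with
    | true =>
      simp only [step, Option.some.injEq, Prod.mk.injEq] at hx
      omega
    | false =>
      simp only [step, Option.some.injEq, Prod.mk.injEq] at hx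
      omega
  | s =>
    cases b with
    | true => have := hs _ hx; right; left; omega
    | false => have := hs' _ _ hx; right; right; omega
  | t =>
    cases b with
    | true => have := hs _ hx; right; left; omega
    | false =>
      change (stepS' K (l, j)).map (fun v => (v.1, v.2 + -1)) = some (l', j') at hx
      rw [Option.map_eq_some_iff] at hx
      obtain ⟨⟨l2, j2⟩, h3, h4⟩ := hx
      have := hs' _ _ h3
      simp only [Prod.mk.injEq] at h4
      right; right; omega
  | e =>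
    have he : stepE K (l, j) = some (l', j') := by cases b <;> exact hx
    rw [stepE_eq] at he
    simp only [Prod.mk.injEq] at he
    obtain ⟨_, _, rfl, rfl⟩ := he
    exact absurd rfl hne
  | z =>
    have : step K (Gen.z, b) (l, j) = none := by cases b <;> rfl
    rw [this] at hx
    exact absurd hx (by simp)

lemma adj_right {K : Option ℕ} (l : ℕ) (j : ℤ) (h : Ok K l) :
    (T K).Adj ⟨(l, j), h⟩ ⟨(l, j + 1), h⟩ := by
  refine ⟨?_, (Gen.a, true), rfl⟩
  intro h
  have := congrArg (fun v : Vt K => v.1.2) h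
  simp at this

lemma adj_up {K : Option ℕ} (l : ℕ) (j : ℤ) (h : Ok K (l + 1)) :
    (T K).Adj ⟨(l, j), h.mono (Nat.le_succ _)⟩ ⟨(l + 1, c j), h⟩ := by
  refine ⟨?_, ?_⟩
  · intro h
    have := congrArg (fun v : Vt K => v.1.1) h
    simp at this
  · rcases Int.even_or_odd' j with ⟨i, rfl | rfl⟩
    · refine ⟨(Gen.s, true), ?_⟩
      change stepS K (l, 2 * i) = some (l + 1, c (2 * i))
      rw [stepS_eq]
      exact ⟨h, rfl, by simp only [c]; omega⟩
    · refine ⟨(Gen.t, true), ?_⟩
      change stepS K (l, 2 * i + 1 + 1) = some (l + 1, c (2 * i + 1))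
      rw [stepS_eq]
      exact ⟨h, rfl, by simp only [c]; omega⟩

/-- There is a walk of length at most `n`. -/
def Wk {V : Type} (G : SimpleGraph V) (p q : V) (n : ℕ) : Prop := ∃ w : G.Walk p q, w.length ≤ n

lemma Wk.trans {V : Type} {G : SimpleGraph V} {p q r : V} {n m : ℕ} (h : Wk G p q n)
    (h' : Wk G q r m) : Wk G p r (n + m) := by
  obtain ⟨w, hw⟩ := h
  obtain ⟨w', hw'⟩ := h'
  refine ⟨w.append w', ?_⟩
  rw [SimpleGraph.Walk.length_append]
  omega

lemma Wk.symm {V : Type} {G : SimpleGraph V} {p q : V} {n : ℕ} (h : Wk G p q n) :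
    Wk G q p n := by
  obtain ⟨w, hw⟩ := h
  exact ⟨w.reverse, by rwa [SimpleGraph.Walk.length_reverse]⟩

lemma Wk.of_adj {V : Type} {G : SimpleGraph V} {p q : V} (h : G.Adj p q) : Wk G p q 1 :=
  ⟨SimpleGraph.Walk.cons h SimpleGraph.Walk.nil, by simp⟩

lemma Wk.refl {V : Type} (G : SimpleGraph V) (p : V) : Wk G p p 0 :=
  ⟨SimpleGraph.Walk.nil, by simp⟩

lemma wk_right {K : Option ℕ} (l : ℕ) (h : Ok K l) (k : ℕ) (j : ℤ) :
    Wk (T K) ⟨(l, j), h⟩ ⟨(l, j + k), h⟩ k := by
  induction k with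
  | zero => simpa using Wk.refl (T K) ⟨(l, j), h⟩
  | succ k ih =>
    have := ih.trans (Wk.of_adj (adj_right l (j + k) h))
    have e : j + ((k + 1 : ℕ) : ℤ) = j + k + 1 := by push_cast; ring
    rw [e]; exact this

lemma wk_across {K : Option ℕ} (l : ℕ) (h : Ok K l) (i j : ℤ) :
    Wk (T K) ⟨(l, i), h⟩ ⟨(l, j), h⟩ (i - j).natAbs := by
  rcases le_total i j with hij | hij
  · have := wk_right l h (i - j).natAbs i
    have e : i + ((i - j).natAbs : ℤ) = j := by omega
    rwa [e] at this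
  · have := (wk_right l h (i - j).natAbs j).symm
    have e : j + ((i - j).natAbs : ℤ) = i := by omega
    rwa [e] at this

lemma wk_up {K : Option ℕ} (k : ℕ) (l : ℕ) (j : ℤ) (h : Ok K (l + k)) :
    Wk (T K) ⟨(l, j), h.mono (Nat.le_add_right _ _)⟩ ⟨(l + k, c^[k] j), h⟩ k := by
  induction k with
  | zero => exact Wk.refl _ _
  | succ k ih =>
    have h1 := ih (h.mono (by omega))
    have h2 := Wk.of_adj (adj_up (l + k) (c^[k] j) h)
    have h3 := h1.trans h2
    simp only [← Function.iterate_succ_apply'] at h3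
    exact h3

lemma wk_cost {K : Option ℕ} (p q : Vt K) {H : ℕ} (hp : p.1.1 ≤ H) (hq : q.1.1 ≤ H)
    (hK : Ok K H) : Wk (T K) p q (cost H p.1 q.1) := by
  have key : ∀ p : Vt K, p.1.1 ≤ H → Wk (T K) p ⟨(H, c^[H - p.1.1] p.1.2), hK⟩ (H - p.1.1) := by
    intro p hp
    obtain ⟨⟨l, j⟩, hl⟩ := p
    simp only at hp ⊢
    obtain ⟨k, rfl⟩ := Nat.exists_eq_add_of_le hp
    have e : l + k - l = k := by omega
    simp only [e]
    exact wk_up k l j hK
  have h1 := key p hp
  have h2 := (key q hq).symm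
  have h3 := (h1.trans (wk_across H hK _ _)).trans h2
  obtain ⟨w, hw⟩ := h3
  refine ⟨w, hw.trans ?_⟩
  unfold cost Nn
  omega

lemma T_connected (K : Option ℕ) : (T K).Connected := by
  have : Nonempty (Vt K) := ⟨⟨(0, 0), ok_zero K⟩⟩
  refine SimpleGraph.Connected.mk ?_
  intro p q
  have hK : Ok K (max p.1.1 q.1.1) := by
    rcases le_total p.1.1 q.1.1 with h | h
    · rw [max_eq_right h]; exact q.2
    · rw [max_eq_left h]; exact p.2
  obtain ⟨w, _⟩ := wk_cost p q (le_max_left _ _) (le_max_right _ _) hK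
  exact ⟨w⟩

/-- The distance is bounded by the cost at every admissible level. -/
lemma dist_le_cost {K : Option ℕ} (p q : Vt K) {H : ℕ} (hp : p.1.1 ≤ H) (hq : q.1.1 ≤ H)
    (hK : Ok K H) : (T K).dist p q ≤ cost H p.1 q.1 := by
  obtain ⟨w, hw⟩ := wk_cost p q hp hq hK
  exact (SimpleGraph.dist_le w).trans hw

/-- Every walk is at least as long as the cost at some level. -/
lemma cost_le_walk {K : Option ℕ} {p q : Vt K} (w : (T K).Walk p q) :
    ∃ H, p.1.1 ≤ H ∧ q.1.1 ≤ H ∧ Ok K H ∧ cost H p.1 q.1 ≤ w.length := by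
  induction w with
  | @nil p =>
    refine ⟨p.1.1, le_rfl, le_rfl, p.2, ?_⟩
    unfold cost Nn
    simp
  | @cons p r q h w ih =>
    obtain ⟨H, h1, h2, h3, h4⟩ := ih
    rw [SimpleGraph.Walk.length_cons]
    rcases adj_cases h with ⟨h5, h6⟩ | ⟨h5, h6⟩ | ⟨h5, h6⟩
    · refine ⟨H, by omega, h2, h3, ?_⟩
      unfold cost Nn at h4 ⊢
      rw [h5] at h4
      have h7 := c_iter_one (H - p.1.1) _ _ h6
      omega
    · refine ⟨H, by omega, h2, h3, ?_⟩
      unfold cost Nn at h4 ⊢
      have e1 : H - p.1.1 = (H - r.1.1) + 1 := by omega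
      rw [e1, Function.iterate_succ_apply, ← h6]
      omega
    · by_cases hH : p.1.1 ≤ H
      · refine ⟨H, hH, h2, h3, ?_⟩
        unfold cost Nn at h4 ⊢
        have e1 : H - r.1.1 = (H - p.1.1) + 1 := by omega
        rw [e1, Function.iterate_succ_apply, ← h6] at h4
        omega
      · have hHr : H = r.1.1 := by omega
        subst hHr
        refine ⟨p.1.1, le_rfl, by omega, p.2, ?_⟩
        unfold cost Nn at h4 ⊢
        have e1 : p.1.1 - q.1.1 = (r.1.1 - q.1.1) + 1 := by omega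
        rw [e1, Function.iterate_succ_apply']
        have e2 : r.1.1 - r.1.1 = 0 := by omega
        rw [e2, Function.iterate_zero, id] at h4
        have e3 : p.1.1 - p.1.1 = 0 := by omega
        rw [e3, Function.iterate_zero, id, h6]
        have h7 := c_contract r.1.2 (c^[r.1.1 - q.1.1] q.1.2)
        omega

/-- The distance is the cost at some level. -/
lemma exists_cost {K : Option ℕ} (p q : Vt K) :
    ∃ H, p.1.1 ≤ H ∧ q.1.1 ≤ H ∧ Ok K H ∧ (T K).dist p q = cost H p.1 q.1 := by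
  obtain ⟨w, hw⟩ := (T_connected K).exists_walk_length_eq_dist p q
  obtain ⟨H, h1, h2, h3, h4⟩ := cost_le_walk w
  exact ⟨H, h1, h2, h3, le_antisymm (dist_le_cost p q h1 h2 h3) (hw ▸ h4)⟩

/-- Good witnesses. -/
lemma good_witness {K : ℕ} (p q : ℕ × ℤ) : ∀ (n H : ℕ), K - H = n → p.1 ≤ H → q.1 ≤ H →
    H ≤ K → ∃ H', p.1 ≤ H' ∧ q.1 ≤ H' ∧ H' ≤ K ∧ (Nn H' p q ≤ 2 ∨ H' = K) ∧
      cost H' p q ≤ cost H p q + 1 := by
  intro n
  induction n with
  | zero =>
    intro H hn hp hq hK
    exact ⟨H, hp, hq, hK, Or.inr (by omega), by omega⟩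
  | succ n ih =>
    intro H hn hp hq hK
    have h1 := Nn_succ (p := p) (q := q) hp hq
    by_cases h2 : Nn H p q ≤ 2
    · exact ⟨H, hp, hq, hK, Or.inl h2, by omega⟩
    · by_cases h3 : Nn H p q = 3
      · refine ⟨H + 1, by omega, by omega, by omega, Or.inl (by omega), ?_⟩
        unfold cost
        omega
      · obtain ⟨H', a1, a2, a3, a4, a5⟩ := ih (H + 1) (by omega) (by omega) (by omega) (by omega)
        refine ⟨H', a1, a2, a3, a4, ?_⟩
        unfold cost at a5 ⊢
        omega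

/-- Three point inequality with base point at the top. -/
lemma three_point {K : ℕ} (p q r : Vt (some K)) (o : Vt (some K)) (ho : o.1 = (K, 0)) :
    (T (some K)).dist p q + (T (some K)).dist o r ≤
      max ((T (some K)).dist o q + (T (some K)).dist p r)
        ((T (some K)).dist o p + (T (some K)).dist r q) + 7 := by
  have hK : Ok (some K) K := ok_some.mpr le_rfl
  have lp := ok_some.mp p.2
  have lq := ok_some.mp q.2
  have lr := ok_some.mp r.2
  have lo : o.1.1 = K := by rw [ho]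
  -- distances to `o`
  have hdo : ∀ x : Vt (some K), (T (some K)).dist o x =
      (K - x.1.1) + (c^[K - x.1.1] x.1.2).natAbs := by
    intro x
    have lx := ok_some.mp x.2
    obtain ⟨H, h1, h2, h3, h4⟩ := exists_cost o x
    have hH : H = K := by rw [ok_some] at h3; omega
    subst hH
    rw [h4]
    unfold cost Nn
    have e0 : H - o.1.1 = 0 := by omega
    rw [e0, Function.iterate_zero, id, ho]
    simp only [zero_sub, Int.natAbs_neg]
    omega
  rw [hdo, hdo, hdo]
  -- good witnesses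
  obtain ⟨H1, a1, a2, a3, a4⟩ := exists_cost p r
  obtain ⟨H1', b1, b2, b3, b4, b5⟩ := good_witness p.1 r.1 _ H1 rfl a1 a2 (ok_some.mp a3)
  obtain ⟨H2, c1, c2, c3, c4⟩ := exists_cost r q
  obtain ⟨H2', d1, d2, d3, d4, d5⟩ := good_witness r.1 q.1 _ H2 rfl c1 c2 (ok_some.mp c3)
  rw [← a4] at b5
  rw [← c4] at d5
  have hNK : ∀ x y : Vt (some K), Nn K x.1 y.1 =
      (c^[K - x.1.1] x.1.2 - c^[K - y.1.1] y.1.2).natAbs := fun x y => rfl
  have hpqK := dist_le_cost p q lp lq hK
  by_cases hA : Nn H1' p.1 r.1 ≤ 2 ∧ Nn H2' r.1 q.1 ≤ 2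
  · obtain ⟨hA1, hA2⟩ := hA
    have hK1 := Nn_mono_two b3 b1 b2 hA1
    have hK2 := Nn_mono_two d3 d1 d2 hA2
    rw [hNK] at hK1 hK2
    rcases le_total H1' H2' with hle | hle
    · have h1 := Nn_mono_two hle b1 b2 hA1
      have h2 := Nn_triangle H2' p.1 q.1 r.1
      have h3 := dist_le_cost p q (b1.trans hle) d2 (ok_some.mpr d3)
      unfold cost at h3 d5
      omega
    · have h1 := Nn_mono_two hle d1 d2 hA2
      have h2 := Nn_triangle H1' p.1 q.1 r.1
      have h3 := dist_le_cost p q b1 (d2.trans hle) (ok_some.mpr b3)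
      unfold cost at h3 b5
      omega
  · unfold cost at hpqK b5 d5
    rw [hNK] at hpqK
    by_cases hH1 : H1' = K
    · subst hH1
      rw [hNK] at b5
      by_cases hH2 : H2' = H1'
      · subst hH2
        rw [hNK] at d5
        omega
      · have hd4 : Nn H2' r.1 q.1 ≤ 2 := d4.resolve_right hH2
        have hK2 := Nn_mono_two d3 d1 d2 hd4
        rw [hNK] at hK2
        omega
    · have hb4 : Nn H1' p.1 r.1 ≤ 2 := b4.resolve_right hH1
      have hK1 := Nn_mono_two b3 b1 b2 hb4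
      rw [hNK] at hK1
      have hH2 : H2' = K := by
        rcases d4 with d4 | d4
        · exact absurd ⟨hb4, d4⟩ hA
        · exact d4
      subst hH2
      rw [hNK] at d5
      omega

/-- Four point inequality for finite height. -/
lemma four_point_fin {K : ℕ} (x y z w : Vt (some K)) :
    (T (some K)).dist x y + (T (some K)).dist z w ≤
      max ((T (some K)).dist x z + (T (some K)).dist y w)
        ((T (some K)).dist x w + (T (some K)).dist y z) + 14 := by
  let o : Vt (some K) := ⟨(K, 0), ok_some.mpr le_rfl⟩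
  have key := fun p q r => three_point p q r o rfl
  have h1 := key x y z
  have h2 := key x y w
  have h3 := key z w x
  have h4 := key z w y
  have c1 := (T (some K)).dist_comm (u := z) (v := x)
  have c2 := (T (some K)).dist_comm (u := z) (v := y)
  have c3 := (T (some K)).dist_comm (u := w) (v := x)
  have c4 := (T (some K)).dist_comm (u := w) (v := y)
  rw [c2] at h1
  rw [c4] at h2
  rw [c1] at h3
  rw [c2] at h4
  omega

/-- The distance in the infinite horoball is computed at finite height. -/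
lemma dist_stable (p q : Vt none) : ∃ H : ℕ, ∀ K : ℕ, H ≤ K → ∃ (hp : Ok (some K) p.1.1)
    (hq : Ok (some K) q.1.1), (T (some K)).dist ⟨p.1, hp⟩ ⟨q.1, hq⟩ = (T none).dist p q := by
  obtain ⟨H, h1, h2, _, h4⟩ := exists_cost p q
  refine ⟨H, fun K hK => ⟨ok_some.mpr (h1.trans hK), ok_some.mpr (h2.trans hK), ?_⟩⟩
  apply le_antisymm
  · rw [h4]
    exact dist_le_cost (K := some K) ⟨p.1, _⟩ ⟨q.1, _⟩ h1 h2 (ok_some.mpr hK)
  · obtain ⟨H', g1, g2, _, g4⟩ := exists_cost (K := some K)
      ⟨p.1, ok_some.mpr (h1.trans hK)⟩ ⟨q.1, ok_some.mpr (h2.trans hK)⟩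
    rw [g4]
    exact dist_le_cost p q g1 g2 (ok_none _)

/-- Four point inequality in all the graphs. -/
lemma four_point {K : Option ℕ} (x y z w : Vt K) :
    (T K).dist x y + (T K).dist z w ≤
      max ((T K).dist x z + (T K).dist y w) ((T K).dist x w + (T K).dist y z) + 14 := by
  cases K with
  | some K => exact four_point_fin x y z w
  | none =>
    obtain ⟨H1, h1⟩ := dist_stable x y
    obtain ⟨H2, h2⟩ := dist_stable z w
    obtain ⟨H3, h3⟩ := dist_stable x z
    obtain ⟨H4, h4⟩ := dist_stable y w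
    obtain ⟨H5, h5⟩ := dist_stable x w
    obtain ⟨H6, h6⟩ := dist_stable y z
    obtain ⟨K, k1, k2, k3, k4, k5, k6⟩ : ∃ K : ℕ, H1 ≤ K ∧ H2 ≤ K ∧ H3 ≤ K ∧ H4 ≤ K ∧ H5 ≤ K ∧
        H6 ≤ K := ⟨H1 + H2 + H3 + H4 + H5 + H6, by omega, by omega, by omega, by omega, by omega,
          by omega⟩
    obtain ⟨a1, b1, e1⟩ := h1 K k1
    obtain ⟨a2, b2, e2⟩ := h2 K k2
    obtain ⟨a3, b3, e3⟩ := h3 K k3
    obtain ⟨a4, b4, e4⟩ := h4 K k4
    obtain ⟨a5, b5, e5⟩ := h5 K k5
    obtain ⟨a6, b6, e6⟩ := h6 K k6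
    rw [← e1, ← e2, ← e3, ← e4, ← e5, ← e6]
    exact four_point_fin _ _ _ _

/-- All the truncated horoballs are hyperbolic with the same constant. -/
lemma T_hyperbolic (K : Option ℕ) : IsHyperbolic (T K) 7 := by
  intro x y z w
  have h := four_point x y z w
  have h' : (((T K).dist x y + (T K).dist z w : ℕ) : ℝ) ≤
      ((max ((T K).dist x z + (T K).dist y w) ((T K).dist x w + (T K).dist y z) + 14 : ℕ) : ℝ) :=
    by exact_mod_cast h
  push_cast at h'
  linarith

/-! ### Transfer along isomorphisms -/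

lemma dist_le_iso {V W : Type} {G : SimpleGraph V} {G' : SimpleGraph W} (f : G ≃g G')
    (hG : G.Connected) (x y : V) : G'.dist (f x) (f y) ≤ G.dist x y := by
  obtain ⟨w, hw⟩ := hG.exists_walk_length_eq_dist x y
  rw [← hw, ← SimpleGraph.Walk.length_map f.toHom w]
  exact SimpleGraph.dist_le (w.map f.toHom)

lemma iso_connected {V W : Type} {G : SimpleGraph V} {G' : SimpleGraph W} (f : G ≃g G')
    (hG : G.Connected) : G'.Connected := by
  have := hG.nonempty.map f
  refine SimpleGraph.Connected.mk ?_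
  intro p q
  obtain ⟨w, _⟩ := hG.exists_walk_length_eq_dist (f.symm p) (f.symm q)
  have := w.map f.toHom
  have e1 : f.toHom (f.symm p) = p := f.apply_symm_apply p
  have e2 : f.toHom (f.symm q) = q := f.apply_symm_apply q
  exact ⟨this.copy e1 e2⟩

lemma dist_iso {V W : Type} {G : SimpleGraph V} {G' : SimpleGraph W} (f : G ≃g G')
    (hG : G.Connected) (x y : V) : G'.dist (f x) (f y) = G.dist x y := by
  refine le_antisymm (dist_le_iso f hG x y) ?_
  have := dist_le_iso f.symm (iso_connected f hG) (f x) (f y)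
  simpa using this

lemma hyperbolic_iso {V W : Type} {G : SimpleGraph V} {G' : SimpleGraph W} (f : G ≃g G')
    (hG : G.Connected) {δ : ℝ} (h : IsHyperbolic G δ) : IsHyperbolic G' δ := by
  intro x y z w
  have := h (f.symm x) (f.symm y) (f.symm z) (f.symm w)
  simpa only [← dist_iso f hG, f.apply_symm_apply] using this

lemma qiTree_iso {V W : Type} {G : SimpleGraph V} {G' : SimpleGraph W} (f : G ≃g G')
    (hG : G.Connected) (h : QITree G') : QITree G := by
  obtain ⟨U, S, g, hS, ⟨L, C, hL, hC, h1⟩, C', h2⟩ := h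
  refine ⟨U, S, fun x => g (f x), hS, ⟨L, C, hL, hC, fun x y => ?_⟩, C', fun y => ?_⟩
  · simp only
    rw [← dist_iso f hG]
    exact h1 (f x) (f y)
  · obtain ⟨x, hx⟩ := h2 y
    exact ⟨f.symm x, by simpa using hx⟩

lemma plane_iso {V W : Type} {G : SimpleGraph V} {G' : SimpleGraph W} (f : G ≃g G')
    (hG : G.Connected) (h : ContainsQIPlane G') : ContainsQIPlane G := by
  obtain ⟨g, L, C, hL, hC, h1⟩ := h
  refine ⟨fun x => f.symm (g x), L, C, hL, hC, fun x y => ?_⟩
  simp only
  rw [← dist_iso f hG, f.apply_symm_apply, f.apply_symm_apply]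
  exact h1 x y

end Pool.Agent.H.MP_8b7a64_al
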