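import Pool.Agent.H.MP_8b7a64_al.Tree

/-!
# No quasi-isometric copies of the hyperbolic plane
-/

namespace Pool.Agent.H.MP_8b7a64_al

open UpperHalfPlane

/-! ### Points in the hyperbolic plane -/

/-- The point `t + i`. -/
noncomputable def hor (t : ℝ) : ℍ := ⟨⟨t, 1⟩, one_pos⟩

/-- The point `i exp t`. -/
noncomputable def ver (t : ℝ) : ℍ := ⟨⟨0, Real.exp t⟩, Real.exp_pos t⟩

lemma dist_hor (s t : ℝ) : dist (hor s) (hor t) = 2 * Real.arsinh (|s - t| / 2) := by
  rw [UpperHalfPlane.dist_eq]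
  congr 2
  have h1 : (hor s).im = 1 := rfl
  have h2 : (hor t).im = 1 := rfl
  rw [h1, h2]
  have h3 : dist ((hor s : ℍ) : ℂ) (hor t) = |s - t| := by
    rw [Complex.dist_of_im_eq (by rfl)]
    rfl
  rw [h3]
  simp

lemma dist_ver (s t : ℝ) : dist (ver s) (ver t) = |s - t| := by
  rw [UpperHalfPlane.dist_of_re_eq (by rfl)]
  have h1 : (ver s).im = Real.exp s := rfl
  have h2 : (ver t).im = Real.exp t := rfl
  rw [h1, h2, Real.log_exp, Real.log_exp, Real.dist_eq]

lemma arsinh_le {y : ℝ} (hy : 0 ≤ y) : Real.arsinh y ≤ 2 * √y := by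
  have h0 : 0 ≤ 2 * √y := by positivity
  have h1 := Real.quadratic_le_exp_of_nonneg h0
  have h2 : Real.exp (-(2 * √y)) ≤ 1 := Real.exp_le_one_iff.mpr (by linarith)
  have h3 : y ≤ Real.sinh (2 * √y) := by
    rw [Real.sinh_eq]
    have h4 : (2 * √y) ^ 2 = 4 * y := by rw [mul_pow, Real.sq_sqrt hy]; norm_num
    rw [h4] at h1
    linarith
  calc Real.arsinh y ≤ Real.arsinh (Real.sinh (2 * √y)) := Real.arsinh_le_arsinh.mpr h3
    _ = 2 * √y := Real.arsinh_sinh _

/-- The hyperbolic plane does not embed quasi-isometrically into `ℤ`. -/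
lemma no_embedding_int (g : ℍ → ℤ) (L C : ℝ) (hL : 1 ≤ L) (hC : 0 ≤ C)
    (h : ∀ x y : ℍ, dist x y / L - C ≤ |(g x : ℝ) - g y| ∧ |(g x : ℝ) - g y| ≤ L * dist x y + C) :
    False := by
  have hLpos : 0 < L := by linarith
  set k : ℝ := 2 * Real.sinh (L * C + 1) with hk
  have hLC : 0 ≤ L * C := mul_nonneg hLpos.le hC
  have hkpos : 0 < k := by
    have : 0 < Real.sinh (L * C + 1) := Real.sinh_pos_iff.mpr (by linarith)
    linarith
  obtain ⟨M, hM⟩ := exists_nat_gt (8 * L * √(k / 2) + 2 * C + 1)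
  have hM1 : (1 : ℝ) ≤ M := by
    have : 0 ≤ 8 * L * √(k / 2) := by positivity
    linarith
  set x : ℕ → ℍ := fun i => hor (k * i) with hx
  have hdist : ∀ i j : ℕ, dist (x i) (x j) = 2 * Real.arsinh (k * |(i : ℝ) - j| / 2) := by
    intro i j
    rw [hx]
    simp only
    rw [dist_hor, ← mul_sub, abs_mul, abs_of_pos hkpos]
  have hinj : Function.Injective (fun i => g (x i)) := by
    intro i j hij
    simp only at hij
    by_contra hne
    have h1 := (h (x i) (x j)).1
    rw [hij, sub_self, abs_zero, hdist] at h1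
    have h2 : (1 : ℝ) ≤ |(i : ℝ) - j| := by
      have h3 : (1 : ℤ) ≤ |(i : ℤ) - j| := by
        apply Int.one_le_abs
        omega
      have h4 : ((1 : ℤ) : ℝ) ≤ ((|(i : ℤ) - j| : ℤ) : ℝ) := by exact_mod_cast h3
      simpa using h4
    have h3 : L * C + 1 ≤ Real.arsinh (k * |(i : ℝ) - j| / 2) := by
      calc L * C + 1 = Real.arsinh (Real.sinh (L * C + 1)) := (Real.arsinh_sinh _).symm
        _ ≤ _ := by
          apply Real.arsinh_le_arsinh.mpr
          have : k ≤ k * |(i : ℝ) - j| := le_mul_of_one_le_right hkpos.le h2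
          linarith
    have h4 : 2 * Real.arsinh (k * |(i : ℝ) - j| / 2) / L ≤ C := by linarith
    rw [div_le_iff₀ hLpos] at h4
    linarith
  -- the bound on the range
  set r : ℝ := L * (2 * (2 * √(k * (M ^ 2 : ℕ) / 2))) + C with hr
  have hr0 : 0 ≤ r := by positivity
  have hbd : ∀ i ≤ M ^ 2, |(g (x i) : ℝ) - g (x 0)| ≤ r := by
    intro i hi
    have h1 := (h (x i) (x 0)).2
    rw [hdist] at h1
    have h2 : (i : ℝ) ≤ (M ^ 2 : ℕ) := by exact_mod_cast hi
    have h3 : |(i : ℝ) - (0 : ℕ)| = i := by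
      rw [Nat.cast_zero, sub_zero, Nat.abs_cast]
    rw [h3] at h1
    have h4 : Real.arsinh (k * i / 2) ≤ 2 * √(k * (M ^ 2 : ℕ) / 2) := by
      calc Real.arsinh (k * i / 2) ≤ Real.arsinh (k * (M ^ 2 : ℕ) / 2) := by
            apply Real.arsinh_le_arsinh.mpr
            have := mul_le_mul_of_nonneg_left h2 hkpos.le
            linarith
        _ ≤ _ := arsinh_le (by positivity)
    have h5 : L * (2 * Real.arsinh (k * i / 2)) ≤ L * (2 * (2 * √(k * (M ^ 2 : ℕ) / 2))) := by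
      apply mul_le_mul_of_nonneg_left _ hLpos.le
      linarith
    rw [hr]
    linarith
  -- pigeonhole
  have hcard : M ^ 2 + 1 ≤ 2 * ⌊r⌋₊ + 1 := by
    have h1 : ((Finset.range (M ^ 2 + 1)).image (fun i => g (x i))) ⊆
        Finset.Icc (g (x 0) - ⌊r⌋₊) (g (x 0) + ⌊r⌋₊) := by
      intro y hy
      rw [Finset.mem_image] at hy
      obtain ⟨i, hi, rfl⟩ := hy
      rw [Finset.mem_range] at hi
      have h2 := hbd i (by omega)
      have h3 : (((g (x i) - g (x 0)).natAbs : ℕ) : ℝ) ≤ r := by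
        rw [Nat.cast_natAbs]
        push_cast
        exact h2
      have h4 : (g (x i) - g (x 0)).natAbs ≤ ⌊r⌋₊ := Nat.le_floor h3
      rw [Finset.mem_Icc]
      omega
    have h2 := Finset.card_le_card h1
    rw [Finset.card_image_of_injective _ hinj, Finset.card_range, Int.card_Icc] at h2
    omega
  have h1 : ((M ^ 2 : ℕ) : ℝ) ≤ 2 * r := by
    have h2 : (⌊r⌋₊ : ℝ) ≤ r := Nat.floor_le hr0
    have h3 : ((M ^ 2 : ℕ) : ℝ) ≤ 2 * ⌊r⌋₊ := by
      have : M ^ 2 ≤ 2 * ⌊r⌋₊ := by omega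
      exact_mod_cast this
    linarith
  have h2 : √(k * (M ^ 2 : ℕ) / 2) = √(k / 2) * M := by
    have e : k * ((M ^ 2 : ℕ) : ℝ) / 2 = k / 2 * (M : ℝ) ^ 2 := by push_cast; ring
    rw [e, Real.sqrt_mul (by positivity), Real.sqrt_sq (by positivity)]
  rw [hr, h2] at h1
  push_cast at h1
  have h3 : (8 * L * √(k / 2) + 2 * C + 1) * M ≤ M * M :=
    mul_le_mul_of_nonneg_right hM.le (by positivity)
  have h4 : C ≤ C * M := le_mul_of_one_le_right hC hM1
  nlinarith

/-- The truncated horoballs of finite height do not contain a hyperbolic plane. -/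
lemma T_some_not_plane (K : ℕ) : ¬ ContainsQIPlane (T (some K)) := by
  rintro ⟨f, L, C, hL, hC, h⟩
  simp only at h
  -- the projection to the top level
  let π : Vt (some K) → ℤ := fun p => c^[K - p.1.1] p.1.2
  have hπ : ∀ p q : Vt (some K), (π p - π q).natAbs ≤ (T (some K)).dist p q ∧
      (T (some K)).dist p q ≤ (π p - π q).natAbs + 2 * K := by
    intro p q
    have lp := ok_some.mp p.2
    have lq := ok_some.mp q.2
    constructor
    · obtain ⟨H, h1, h2, h3, h4⟩ := exists_cost p q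
      rw [ok_some] at h3
      rw [h4]
      have h5 : ∀ n, H ≤ n → Nn n p.1 q.1 ≤ Nn H p.1 q.1 := by
        intro n hn
        induction n, hn using Nat.le_induction with
        | base => exact le_rfl
        | succ n hn ih =>
          have := Nn_succ (p := p.1) (q := q.1) (h1.trans hn) (h2.trans hn)
          omega
      have h6 : (π p - π q).natAbs = Nn K p.1 q.1 := rfl
      have h7 := h5 K h3
      unfold cost
      omega
    · have h1 := dist_le_cost p q lp lq (ok_some.mpr le_rfl)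
      have h6 : (π p - π q).natAbs = Nn K p.1 q.1 := rfl
      unfold cost at h1
      omega
  refine no_embedding_int (fun x => π (f x)) L (C + 2 * K) hL (by positivity) ?_
  intro x y
  obtain ⟨h1, h2⟩ := h x y
  obtain ⟨h3, h4⟩ := hπ (f x) (f y)
  have e : |((π (f x) : ℤ) : ℝ) - (π (f y) : ℤ)| = ((π (f x) - π (f y)).natAbs : ℕ) := by
    rw [Nat.cast_natAbs]; push_cast; rfl
  rw [e]
  have h3' : (((π (f x) - π (f y)).natAbs : ℕ) : ℝ) ≤ (T (some K)).dist (f x) (f y) := by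
    exact_mod_cast h3
  have h4' : ((T (some K)).dist (f x) (f y) : ℝ) ≤ ((π (f x) - π (f y)).natAbs : ℕ) + 2 * K := by
    exact_mod_cast h4
  have hK : (0 : ℝ) ≤ 2 * K := by positivity
  constructor <;> linarith

lemma Nn_anti {H H' : ℕ} (h : H ≤ H') {p q : ℕ × ℤ} (hp : p.1 ≤ H) (hq : q.1 ≤ H) :
    Nn H' p q ≤ Nn H p q := by
  induction H', h using Nat.le_induction with
  | base => exact le_rfl
  | succ n hn ih =>
    have := Nn_succ (p := p) (q := q) (hp.trans hn) (hq.trans hn)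
    omega

lemma Nn_le_dist {p q : Vt none} {κ H : ℕ} (hd : (T none).dist p q ≤ κ) (hp : p.1.1 + κ ≤ H) :
    Nn H p.1 q.1 ≤ κ := by
  obtain ⟨H0, h1, h2, _, h4⟩ := exists_cost p q
  rw [h4] at hd
  unfold cost at hd
  have := Nn_anti (H := H0) (H' := H) (by omega) h1 h2
  omega

lemma Nn_path (F : ℕ → Vt none) (κ H : ℕ) (hκ : ∀ i, (T none).dist (F i) (F (i + 1)) ≤ κ)
    (n : ℕ) (hn : ∀ i < n, (F i).1.1 + κ ≤ H) : Nn H (F 0).1 (F n).1 ≤ κ * n := by
  induction n with
  | zero => unfold Nn; simp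
  | succ n ih =>
    have h1 := ih (fun i hi => hn i (by omega))
    have h2 := Nn_triangle H (F 0).1 (F (n + 1)).1 (F n).1
    have h3 := Nn_le_dist (hκ n) (hn n (by omega))
    rw [Nat.mul_succ]
    omega

lemma level_path (F : ℕ → Vt none) (κ : ℕ) (hκ : ∀ i, (T none).dist (F i) (F (i + 1)) ≤ κ)
    (n : ℕ) : (F n).1.1 ≤ (F 0).1.1 + κ * n := by
  induction n with
  | zero => simp
  | succ n ih =>
    have h2 := level_le (F (n + 1)) (F n)
    rw [(T none).dist_comm] at h2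
    have h3 := hκ n
    rw [Nat.mul_succ]
    omega

lemma mul_pow_le (κ n : ℕ) : κ * 2 ^ n ≤ 2 ^ (n + κ) := by
  rw [pow_add, mul_comm (2 ^ n)]
  exact Nat.mul_le_mul_right _ (Nat.lt_two_pow_self).le

/-- A quasi-geodesic ray climbs quickly. -/
lemma climb (F : ℕ → Vt none) (R : ℕ) (hκ : ∀ i, (T none).dist (F i) (F (i + 1)) ≤ 2 * R)
    (hlow : ∀ n, n ≤ R * ((T none).dist (F 0) (F n) + R)) (M : ℕ)
    (hM : R * (2 * (M ^ 2 + M + 4 * R) + 1 + R) < 2 ^ M) (hl : (F 0).1.1 < M ^ 2) :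
    ∃ i, i ≤ 2 ^ M ∧ M ^ 2 ≤ (F i).1.1 ∧ (F i).1.1 ≤ M ^ 2 + 2 * R ∧
      M ^ 2 ≤ (F 0).1.1 + 2 * R * i ∧ Nn (M ^ 2 + 4 * R) (F 0).1 (F i).1 ≤ 2 * R * i := by
  classical
  have hex : ∃ i, i ≤ 2 ^ M ∧ M ^ 2 ≤ (F i).1.1 := by
    by_contra hcon
    push Not at hcon
    have h1 := Nn_path F (2 * R) (M ^ 2 + 2 * R) hκ (2 ^ M)
      (fun i hi => by have := hcon i hi.le; omega)
    have h2 := mul_pow_le (2 * R) M
    have h3 := Nn_halve (M + 2 * R) (H := M ^ 2 + 2 * R) (p := (F 0).1) (q := (F (2 ^ M)).1)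
      (by omega) (by have := hcon (2 ^ M) le_rfl; omega) (h1.trans h2)
    have h4 := dist_le_cost (F 0) (F (2 ^ M)) (H := M ^ 2 + 2 * R + (M + 2 * R))
      (by omega) (by have := hcon (2 ^ M) le_rfl; omega) (ok_none _)
    have h5 : (T none).dist (F 0) (F (2 ^ M)) ≤ 2 * (M ^ 2 + M + 4 * R) + 1 := by
      unfold cost at h4
      omega
    have h6 := hlow (2 ^ M)
    have h7 : R * ((T none).dist (F 0) (F (2 ^ M)) + R) ≤
        R * (2 * (M ^ 2 + M + 4 * R) + 1 + R) := Nat.mul_le_mul_left _ (by omega)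
    omega
  have hex' : ∃ i, M ^ 2 ≤ (F i).1.1 := by
    obtain ⟨i, _, h⟩ := hex
    exact ⟨i, h⟩
  set i := Nat.find hex' with hi
  have hi1 : M ^ 2 ≤ (F i).1.1 := Nat.find_spec hex'
  have hi2 : ∀ j < i, (F j).1.1 < M ^ 2 := fun j hj => by
    have := Nat.find_min hex' hj
    omega
  have hi3 : i ≤ 2 ^ M := by
    obtain ⟨j, hj1, hj2⟩ := hex
    exact (Nat.find_min' hex' hj2).trans hj1
  have hi0 : i ≠ 0 := by
    intro h0
    rw [h0] at hi1
    omega
  obtain ⟨j, hj⟩ : ∃ j, i = j + 1 := ⟨i - 1, by omega⟩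
  refine ⟨i, hi3, hi1, ?_, ?_, ?_⟩
  · have h1 := level_le (F (j + 1)) (F j)
    rw [(T none).dist_comm] at h1
    have h2 := hκ j
    have h3 := hi2 j (by omega)
    rw [hj]
    omega
  · have h1 := level_path F (2 * R) hκ i
    omega
  · exact Nn_path F (2 * R) _ hκ i (fun k hk => by have := hi2 k hk; omega)

lemma cube_lt (M : ℕ) (hM : 20 ≤ M) : 12 * M ^ 3 < 2 ^ M := by
  induction M, hM using Nat.le_induction with
  | base => norm_num
  | succ n hn ih =>
    have h1 : 12 * (n + 1) ^ 3 ≤ 2 * (12 * n ^ 3) := by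
      nlinarith [Nat.mul_le_mul hn hn, Nat.mul_le_mul (Nat.mul_le_mul hn hn) hn,
        Nat.mul_le_mul hn (le_refl (n ^ 2)), Nat.mul_le_mul hn (le_refl n)]
    rw [pow_succ 2 n]
    omega

/-- Two quasi-geodesic rays from the same point which diverge from each other: impossible. -/
lemma no_line (F G : ℕ → Vt none) (R : ℕ) (h0 : G 0 = F 0)
    (hF : ∀ i, (T none).dist (F i) (F (i + 1)) ≤ 2 * R)
    (hG : ∀ i, (T none).dist (G i) (G (i + 1)) ≤ 2 * R)
    (hF' : ∀ n, n ≤ R * ((T none).dist (F 0) (F n) + R))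
    (hG' : ∀ n, n ≤ R * ((T none).dist (G 0) (G n) + R))
    (hFG : ∀ i j, i + j ≤ R * ((T none).dist (F i) (G j) + R))
    (hlR : (F 0).1.1 ≤ R) (hR1 : 1 ≤ R) : False := by
  obtain ⟨M, hM⟩ : ∃ M : ℕ, M = 20 * (R + 1) ^ 2 := ⟨_, rfl⟩
  have hMR : R + 1 ≤ M := by rw [hM]; nlinarith
  have hM20 : 20 ≤ M := by rw [hM]; nlinarith
  have hpow : R * (2 * (M ^ 2 + M + 4 * R) + 1 + R) < 2 ^ M := by
    refine lt_of_le_of_lt ?_ (cube_lt M hM20)
    calc R * (2 * (M ^ 2 + M + 4 * R) + 1 + R)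
        ≤ M * (2 * (M ^ 2 + M + 4 * M) + M + M) := by
          apply Nat.mul_le_mul (by omega)
          omega
      _ ≤ 12 * M ^ 3 := by nlinarith [Nat.mul_le_mul hM20 (le_refl (M ^ 2))]
  have hMM : R + 1 ≤ M ^ 2 := by nlinarith
  obtain ⟨i, i1, i2, i3, i4, i5⟩ := climb F R hF hF' M hpow (by omega)
  obtain ⟨j, j1, j2, j3, j4, j5⟩ := climb G R hG hG' M hpow (by rw [h0]; omega)
  rw [h0] at j4 j5
  have h6 := hFG i j
  clear hFG hF hG hF' hG'
  generalize F i = p at *
  generalize G j = q at *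
  -- the two points are close
  have h1 : Nn (M ^ 2 + 4 * R) p.1 q.1 ≤ 2 * R * (i + j) := by
    have h2 := Nn_triangle (M ^ 2 + 4 * R) p.1 q.1 (F 0).1
    rw [Nn_comm _ p.1 (F 0).1] at h2
    rw [Nat.mul_add]
    omega
  have h2 : 2 * R * (i + j) ≤ 2 ^ (M + 1 + 2 * R) := by
    refine le_trans (Nat.mul_le_mul_left _ ?_) (mul_pow_le (2 * R) (M + 1))
    rw [pow_succ 2 M]
    omega
  have h3 := Nn_halve (M + 1 + 2 * R) (H := M ^ 2 + 4 * R) (p := p.1) (q := q.1)
    (by omega) (by omega) (h1.trans h2)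
  have h4 := dist_le_cost p q (H := M ^ 2 + 4 * R + (M + 1 + 2 * R)) (by omega) (by omega)
    (ok_none _)
  have h5 : (T none).dist p q ≤ 12 * R + 2 * M + 3 := by
    unfold cost at h4
    omega
  -- but they are far
  have h7 : i + j ≤ R * (12 * R + 2 * M + 3 + R) :=
    h6.trans (Nat.mul_le_mul_left _ (by omega))
  have h8 : M ^ 2 + M ^ 2 ≤ 2 * R + 2 * R * (i + j) := by
    rw [Nat.mul_add]
    omega
  have h9 : M ^ 2 ≤ R + R * (R * (12 * R + 2 * M + 3 + R)) := by
    have h10 : R * (i + j) ≤ R * (R * (12 * R + 2 * M + 3 + R)) := Nat.mul_le_mul_left _ h7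
    have h11 : 2 * R * (i + j) = 2 * (R * (i + j)) := by ring
    omega
  have h10 : R + R * (R * (12 * R + 2 * M + 3 + R)) ≤ M + R * (R * (18 * M)) := by
    have : R * (R * (12 * R + 2 * M + 3 + R)) ≤ R * (R * (18 * M)) := by
      apply Nat.mul_le_mul_left
      apply Nat.mul_le_mul_left
      omega
    omega
  have h11 : M * M ≤ M * (1 + 18 * (R * R)) := by nlinarith
  have h12 : M ≤ 1 + 18 * (R * R) := Nat.le_of_mul_le_mul_left h11 (by omega)
  rw [hM] at h12
  nlinarith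

/-- The infinite horoball does not contain a hyperbolic plane. -/
lemma T_none_not_plane : ¬ ContainsQIPlane (T none) := by
  rintro ⟨f, L, C, hL, hC, h⟩
  simp only at h
  have hLpos : 0 < L := by linarith
  obtain ⟨R, hR⟩ := exists_nat_gt (L + C + (f (ver 0)).1.1)
  have hlev0 : (0 : ℝ) ≤ (f (ver 0)).1.1 := Nat.cast_nonneg _
  have hLR : L ≤ R := by linarith
  have hCR : C ≤ R := by linarith
  have hlR : (f (ver 0)).1.1 ≤ R := by
    have : ((f (ver 0)).1.1 : ℝ) ≤ R := by linarith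
    exact_mod_cast this
  have hR1 : 1 ≤ R := by
    have : (1 : ℝ) ≤ R := by linarith
    exact_mod_cast this
  have hup : ∀ s t : ℝ, |s - t| ≤ 1 → (T none).dist (f (ver s)) (f (ver t)) ≤ 2 * R := by
    intro s t hst
    have h1 := (h (ver s) (ver t)).2
    rw [dist_ver] at h1
    have h2 : L * |s - t| ≤ L * 1 := mul_le_mul_of_nonneg_left hst hLpos.le
    have h3 : (((T none).dist (f (ver s)) (f (ver t)) : ℕ) : ℝ) ≤ ((2 * R : ℕ) : ℝ) := by
      push_cast
      linarith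
    exact_mod_cast h3
  have hdn : ∀ (n : ℕ) (s t : ℝ), |s - t| = n →
      n ≤ R * ((T none).dist (f (ver s)) (f (ver t)) + R) := by
    intro n s t hst
    have h1 := (h (ver s) (ver t)).1
    rw [dist_ver, hst] at h1
    have h2 : (n : ℝ) / L ≤ (T none).dist (f (ver s)) (f (ver t)) + R := by linarith
    rw [div_le_iff₀ hLpos] at h2
    have h4 : (0 : ℝ) ≤ (T none).dist (f (ver s)) (f (ver t)) + R := by positivity
    have h3 : (n : ℝ) ≤ ((R * ((T none).dist (f (ver s)) (f (ver t)) + R) : ℕ) : ℝ) := by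
      push_cast
      have := mul_le_mul_of_nonneg_left hLR h4
      linarith
    exact_mod_cast h3
  refine no_line (fun n => f (ver n)) (fun n => f (ver (-(n : ℝ)))) R (by simp)
    (fun n => hup _ _ (by push_cast; rw [sub_add_cancel_left, abs_neg, abs_one]))
    (fun n => hup _ _ (by push_cast; rw [show -(n : ℝ) - -((n : ℝ) + 1) = 1 by ring, abs_one]))
    (fun n => hdn n _ _ (by simp)) (fun n => hdn n _ _ (by simp)) (fun i j => ?_) ?_ hR1
  · apply hdn
    push_cast
    rw [sub_neg_eq_add, abs_of_nonneg (by positivity)]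
  · simp only [Nat.cast_zero]
    exact hlR

/-- No truncated horoball contains a hyperbolic plane. -/
lemma T_not_plane (K : Option ℕ) : ¬ ContainsQIPlane (T K) := by
  cases K with
  | none => exact T_none_not_plane
  | some K => exact T_some_not_plane K

/-- A graph with one vertex does not contain a hyperbolic plane. -/
lemma point_not_plane {V : Type} {G : SimpleGraph V} (h : ∀ x y : V, x = y) :
    ¬ ContainsQIPlane G := by
  rintro ⟨f, L, C, hL, hC, hf⟩
  simp only at hf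
  have hLpos : 0 < L := by linarith
  have h1 := (hf (ver (L * (C + 1))) (ver 0)).1
  rw [h (f (ver (L * (C + 1)))) (f (ver 0)), SimpleGraph.dist_self, dist_ver, sub_zero,
    abs_of_nonneg (by positivity), mul_div_cancel_left₀ _ hLpos.ne'] at h1
  simp only [Nat.cast_zero] at h1
  linarith

end Pool.Agent.H.MP_8b7a64_al
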