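import Pool.Agent.H.MP_8b7a64_al.Algebra

/-!
# The presentation of the example and its action on (truncated) horoballs
-/

namespace Pool.Agent.H.MP_8b7a64_al

/-- The generators of the example. -/
inductive Gen
  | a | s | t | e | z
  deriving DecidableEq

instance : Finite Gen := by
  have : Function.Injective (fun g : Gen => (match g with
    | Gen.a => (0 : Fin 5) | Gen.s => 1 | Gen.t => 2 | Gen.e => 3 | Gen.z => 4)) := by
    intro g h
    cases g <;> cases h <;> simp
  exact Finite.of_injective _ this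

/-- A positive letter. -/
abbrev pos (g : Gen) : FreeMonoid (Gen × Bool) := FreeMonoid.of (g, true)

/-- A negative letter. -/
abbrev neg (g : Gen) : FreeMonoid (Gen × Bool) := FreeMonoid.of (g, false)

open Gen in
/-- The relations of the example: `a` is a unit, `sa = a²s`, `t = as`, `e² = e`, `es = se`,
`ess⁻¹ = e`, `ss⁻¹ass⁻¹ = z`, and `z` is a zero. -/
def rels : Set (FreeMonoid (Gen × Bool) × FreeMonoid (Gen × Bool)) :=
  {(pos a * neg a, 1), (neg a * pos a, 1), (pos s * pos a, pos a * pos a * pos s),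
   (pos t, pos a * pos s), (pos e * pos e, pos e), (pos e * pos s, pos s * pos e),
   (pos e * pos s * neg s, pos e), (pos s * neg s * pos a * pos s * neg s, pos z),
   (pos z * pos a, pos z), (pos a * pos z, pos z), (pos z * pos s, pos z),
   (pos s * pos z, pos z), (pos z * pos e, pos z), (pos e * pos z, pos z),
   (pos z * pos z, pos z)}

lemma rels_finite : rels.Finite := by
  unfold rels
  exact Set.toFinite _

/-- The example. -/
abbrev X : Type := PresInv Gen rels

lemma rel_eq {u v : FreeMonoid (Gen × Bool)} (h : (u, v) ∈ rels) : cl rels u = cl rels v :=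
  cl_eq_of_rel (InvRel.rel u v h)

/-- The class of a positive letter. -/
abbrev g' (g : Gen) : X := gen rels (g, true)

lemma gen_false (g : Gen) : gen rels (g, false) = (g' g)⁻¹ := rfl

lemma a_unit1 : g' Gen.a * (g' Gen.a)⁻¹ = 1 :=
  rel_eq (u := pos Gen.a * neg Gen.a) (v := 1) (by simp [rels])
lemma a_unit2 : (g' Gen.a)⁻¹ * g' Gen.a = 1 :=
  rel_eq (u := neg Gen.a * pos Gen.a) (v := 1) (by simp [rels])
lemma r_sa : g' Gen.s * g' Gen.a = g' Gen.a * g' Gen.a * g' Gen.s :=
  rel_eq (u := pos Gen.s * pos Gen.a) (v := pos Gen.a * pos Gen.a * pos Gen.s) (by simp [rels])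
lemma r_t : g' Gen.t = g' Gen.a * g' Gen.s :=
  rel_eq (u := pos Gen.t) (v := pos Gen.a * pos Gen.s) (by simp [rels])
lemma r_ee : g' Gen.e * g' Gen.e = g' Gen.e :=
  rel_eq (u := pos Gen.e * pos Gen.e) (v := pos Gen.e) (by simp [rels])
lemma r_es : g' Gen.e * g' Gen.s = g' Gen.s * g' Gen.e :=
  rel_eq (u := pos Gen.e * pos Gen.s) (v := pos Gen.s * pos Gen.e) (by simp [rels])
lemma r_ess : g' Gen.e * g' Gen.s * (g' Gen.s)⁻¹ = g' Gen.e :=
  rel_eq (u := pos Gen.e * pos Gen.s * neg Gen.s) (v := pos Gen.e) (by simp [rels])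
lemma r_odd : g' Gen.s * (g' Gen.s)⁻¹ * g' Gen.a * g' Gen.s * (g' Gen.s)⁻¹ = g' Gen.z :=
  rel_eq (u := pos Gen.s * neg Gen.s * pos Gen.a * pos Gen.s * neg Gen.s) (v := pos Gen.z) (by simp [rels])
lemma r_za : g' Gen.z * g' Gen.a = g' Gen.z := rel_eq (by simp [rels])
lemma r_az : g' Gen.a * g' Gen.z = g' Gen.z := rel_eq (by simp [rels])
lemma r_zs : g' Gen.z * g' Gen.s = g' Gen.z := rel_eq (by simp [rels])
lemma r_sz : g' Gen.s * g' Gen.z = g' Gen.z := rel_eq (by simp [rels])
lemma r_ze : g' Gen.z * g' Gen.e = g' Gen.z := rel_eq (by simp [rels])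
lemma r_ez : g' Gen.e * g' Gen.z = g' Gen.z := rel_eq (by simp [rels])
lemma r_zz : g' Gen.z * g' Gen.z = g' Gen.z := rel_eq (by simp [rels])

lemma zero_gen (g : Gen) : g' g * g' Gen.z = g' Gen.z ∧ g' Gen.z * g' g = g' Gen.z := by
  cases g with
  | a => exact ⟨r_az, r_za⟩
  | s => exact ⟨r_sz, r_zs⟩
  | t =>
    rw [r_t]
    exact ⟨by rw [mul_assoc, r_sz, r_az], by rw [← mul_assoc, r_za, r_zs]⟩
  | e => exact ⟨r_ez, r_ze⟩
  | z => exact ⟨r_zz, r_zz⟩

lemma zero_letter (x : Gen × Bool) :
    gen rels x * g' Gen.z = g' Gen.z ∧ g' Gen.z * gen rels x = g' Gen.z := by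
  obtain ⟨g, b⟩ := x
  cases b with
  | true => exact zero_gen g
  | false =>
    have h := zero_gen g
    have hz : (g' Gen.z)⁻¹ = g' Gen.z := inv_of_idem r_zz
    rw [gen_false]
    constructor
    · have := congrArg (fun x => x⁻¹) h.2
      simpa only [mir, hz] using this
    · have := congrArg (fun x => x⁻¹) h.1
      simpa only [mir, hz] using this

/-- Induction on words. -/
lemma word_induction {P : X → Prop} (h1 : P 1) (h2 : ∀ x y, P y → P (gen rels x * y)) (x : X) :
    P x := by
  obtain ⟨w, rfl⟩ := cl_surj x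
  induction w using FreeMonoid.inductionOn' with
  | one => simpa using h1
  | of_mul b w ih => rw [map_mul]; exact h2 b _ ih

/-- Induction on words, adding letters on the right. -/
lemma word_induction_right {P : X → Prop} (h1 : P 1) (h2 : ∀ x y, P y → P (y * gen rels x))
    (x : X) : P x := by
  have key : ∀ x y, P y → P (y * x) := by
    intro x
    induction x using word_induction with
    | h1 => intro y hy; rwa [mul_one]
    | h2 x z ih => intro y hy; rw [← mul_assoc]; exact ih _ (h2 _ _ hy)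
  have := key x 1 h1
  rwa [one_mul] at this

lemma zero_all (x : X) : x * g' Gen.z = g' Gen.z ∧ g' Gen.z * x = g' Gen.z := by
  induction x using word_induction with
  | h1 => simp
  | h2 x y ih =>
    constructor
    · rw [mul_assoc, ih.1, (zero_letter x).1]
    · rw [← mul_assoc, (zero_letter x).2, ih.2]

/-- The example is a model of the relations. -/
def model : Model X where
  a := ⟨g' Gen.a, (g' Gen.a)⁻¹, a_unit1, a_unit2⟩
  s := g' Gen.s
  e := g' Gen.e
  z := g' Gen.z
  hsa := r_sa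
  hee := r_ee
  hes := r_es
  hess := r_ess
  hodd := r_odd
  hz := zero_all

lemma model_a : ((model.a ^ (1 : ℤ) : Xˣ) : X) = g' Gen.a := by simp [model]

lemma model_a_neg : ((model.a ^ (-1 : ℤ) : Xˣ) : X) = (g' Gen.a)⁻¹ := by simp [model]

lemma e_inv : (g' Gen.e)⁻¹ = g' Gen.e := inv_of_idem r_ee

lemma z_inv : (g' Gen.z)⁻¹ = g' Gen.z := inv_of_idem r_zz

lemma isNF_letter {x : X} (h : model.IsNF x) (y : Gen × Bool) :
    model.IsNF (x * gen rels y) := by
  obtain ⟨g, b⟩ := y
  have ha := model.isNF_a h 1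
  rw [model_a] at ha
  cases g with
  | a =>
    cases b with
    | true => exact ha
    | false =>
      have := model.isNF_a h (-1)
      rwa [model_a_neg] at this
  | s =>
    cases b with
    | true => exact model.isNF_s h
    | false => exact model.isNF_sinv h
  | t =>
    cases b with
    | true =>
      change model.IsNF (x * g' Gen.t)
      rw [r_t, ← mul_assoc]
      exact model.isNF_s ha
    | false =>
      change model.IsNF (x * (g' Gen.t)⁻¹)
      rw [r_t, mir, ← mul_assoc]
      have := model.isNF_a (model.isNF_sinv h) (-1)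
      rwa [model_a_neg] at this
  | e =>
    cases b with
    | true => exact model.isNF_e h
    | false =>
      change model.IsNF (x * (g' Gen.e)⁻¹)
      rw [e_inv]
      exact model.isNF_e h
  | z =>
    cases b with
    | true => exact Or.inl (zero_all x).1
    | false =>
      change model.IsNF (x * (g' Gen.z)⁻¹)
      rw [z_inv]
      exact Or.inl (zero_all x).1

/-- Every element is in normal form. -/
theorem isNF_all (x : X) : model.IsNF x := by
  induction x using word_induction_right with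
  | h1 => exact model.isNF_one
  | h2 x y ih => exact isNF_letter ih x

open Classical in
/-- The action of `s` on the horoball of height `K`. -/
noncomputable def stepS (K : Option ℕ) (v : ℕ × ℤ) : Option (ℕ × ℤ) :=
  if Ok K (v.1 + 1) ∧ v.2 % 2 = 0 then some (v.1 + 1, v.2 / 2) else none

open Classical in
/-- The action of `s⁻¹` on the horoball of height `K`. -/
noncomputable def stepS' (K : Option ℕ) (v : ℕ × ℤ) : Option (ℕ × ℤ) :=
  if 1 ≤ v.1 ∧ Ok K v.1 then some (v.1 - 1, 2 * v.2) else none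

open Classical in
/-- The action of `e` on the horoball of height `K`. -/
noncomputable def stepE (K : Option ℕ) (v : ℕ × ℤ) : Option (ℕ × ℤ) :=
  if K = none ∧ v.2 = 0 then some v else none

/-- The action of the letters on the horoball of height `K`. -/
noncomputable def step (K : Option ℕ) : Gen × Bool → ℕ × ℤ → Option (ℕ × ℤ)
  | (Gen.a, true), v => some (v.1, v.2 + 1)
  | (Gen.a, false), v => some (v.1, v.2 + -1)
  | (Gen.s, true), v => stepS K v
  | (Gen.s, false), v => stepS' K v
  | (Gen.t, true), v => stepS K (v.1, v.2 + 1)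
  | (Gen.t, false), v => (stepS' K v).map (fun v => (v.1, v.2 + -1))
  | (Gen.e, _), v => stepE K v
  | (Gen.z, _), _ => none

lemma stepS_eq {K : Option ℕ} {v v' : ℕ × ℤ} :
    stepS K v = some v' ↔ Ok K (v.1 + 1) ∧ v'.1 = v.1 + 1 ∧ v.2 = 2 * v'.2 := by
  obtain ⟨l, j⟩ := v
  obtain ⟨l', j'⟩ := v'
  unfold stepS
  split_ifs with h
  · simp only [Option.some.injEq, Prod.mk.injEq]
    obtain ⟨h1, h2⟩ := h
    simp only at h1 h2
    constructor
    · rintro ⟨rfl, rfl⟩; exact ⟨h1, rfl, by omega⟩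
    · rintro ⟨_, rfl, h3⟩; exact ⟨rfl, by omega⟩
  · constructor
    · intro h2; exact absurd h2 (by simp)
    · rintro ⟨h1, h2, h3⟩; exact absurd ⟨h1, by simp only at h3 ⊢; omega⟩ h

lemma stepS'_eq {K : Option ℕ} {v v' : ℕ × ℤ} :
    stepS' K v = some v' ↔ Ok K v.1 ∧ v.1 = v'.1 + 1 ∧ v'.2 = 2 * v.2 := by
  obtain ⟨l, j⟩ := v
  obtain ⟨l', j'⟩ := v'
  unfold stepS'
  split_ifs with h
  · simp only [Option.some.injEq, Prod.mk.injEq]
    obtain ⟨h1, h2⟩ := h
    simp only at h1 h2
    constructor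
    · rintro ⟨rfl, rfl⟩; exact ⟨h2, by omega, rfl⟩
    · rintro ⟨_, h3, rfl⟩; exact ⟨by omega, rfl⟩
  · constructor
    · intro h2; exact absurd h2 (by simp)
    · rintro ⟨h1, h2, h3⟩; exact absurd ⟨by simp only at h2 ⊢; omega, h1⟩ h

lemma stepE_eq {K : Option ℕ} {v v' : ℕ × ℤ} :
    stepE K v = some v' ↔ K = none ∧ v.2 = 0 ∧ v' = v := by
  unfold stepE
  split_ifs with h
  · simp only [Option.some.injEq, h, true_and]
    exact eq_comm
  · constructor
    · intro h2; exact absurd h2 (by simp)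
    · rintro ⟨h1, h2, h3⟩; exact absurd ⟨h1, h2⟩ h

/-- The letters act by partial injections, inverse letters by inverse partial maps. -/
lemma step_inv {K : Option ℕ} {x : Gen × Bool} {v v' : ℕ × ℤ} (h : step K x v = some v') :
    step K (x.1, !x.2) v' = some v := by
  obtain ⟨g, b⟩ := x
  obtain ⟨l, j⟩ := v
  obtain ⟨l', j'⟩ := v'
  cases g <;> cases b <;> simp only [step, Bool.not_true, Bool.not_false] at h ⊢
  · simp only [Option.some.injEq, Prod.mk.injEq] at h ⊢
    exact ⟨h.1.symm, by omega⟩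
  · simp only [Option.some.injEq, Prod.mk.injEq] at h ⊢
    exact ⟨h.1.symm, by omega⟩
  · rw [stepS'_eq] at h
    rw [stepS_eq]
    simp only at h ⊢
    obtain ⟨h1, h2, h3⟩ := h
    exact ⟨h2 ▸ h1, h2, h3⟩
  · rw [stepS_eq] at h
    rw [stepS'_eq]
    simp only at h ⊢
    obtain ⟨h1, h2, h3⟩ := h
    exact ⟨h2 ▸ h1, h2, h3⟩
  · rw [Option.map_eq_some_iff] at h
    obtain ⟨⟨l2, j2⟩, h1, h2⟩ := h
    rw [stepS'_eq] at h1
    rw [stepS_eq]
    simp only [Prod.mk.injEq] at h1 h2 ⊢
    obtain ⟨h3, h4, h5⟩ := h1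
    obtain ⟨rfl, h6⟩ := h2
    exact ⟨h4 ▸ h3, h4, by omega⟩
  · rw [stepS_eq] at h
    rw [Option.map_eq_some_iff]
    simp only at h
    refine ⟨(l, 2 * j'), ?_, ?_⟩
    · rw [stepS'_eq]
      exact ⟨h.2.1 ▸ h.1, h.2.1, rfl⟩
    · simp only [Prod.mk.injEq, true_and]; omega
  · rw [stepE_eq] at h ⊢
    obtain ⟨h1, h2, h3⟩ := h
    rw [h3]; exact ⟨h1, h2, rfl⟩
  · rw [stepE_eq] at h ⊢
    obtain ⟨h1, h2, h3⟩ := h
    rw [h3]; exact ⟨h1, h2, rfl⟩
  · simp at h
  · simp at h

end Pool.Agent.H.MP_8b7a64_al
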