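import Pool.Agent.H.MP_8b7a64_al.Metric

/-!
# The infinite horoball is not quasi-isometric to a tree
-/

namespace Pool.Agent.H.MP_8b7a64_al

open SimpleGraph

/-- There is a walk all of whose vertices satisfy `P`. -/
def Wp {V : Type} (G : SimpleGraph V) (P : V → Prop) (p q : V) : Prop :=
  ∃ w : G.Walk p q, ∀ z ∈ w.support, P z

lemma Wp.trans {V : Type} {G : SimpleGraph V} {P : V → Prop} {p q r : V} (h : Wp G P p q)
    (h' : Wp G P q r) : Wp G P p r := by
  obtain ⟨w, hw⟩ := h
  obtain ⟨w', hw'⟩ := h'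
  refine ⟨w.append w', fun z hz => ?_⟩
  rw [SimpleGraph.Walk.mem_support_append_iff] at hz
  rcases hz with hz | hz
  · exact hw z hz
  · exact hw' z hz

lemma Wp.symm {V : Type} {G : SimpleGraph V} {P : V → Prop} {p q : V} (h : Wp G P p q) :
    Wp G P q p := by
  obtain ⟨w, hw⟩ := h
  refine ⟨w.reverse, fun z hz => hw z ?_⟩
  rwa [SimpleGraph.Walk.support_reverse, List.mem_reverse] at hz

lemma Wp.mono {V : Type} {G : SimpleGraph V} {P Q : V → Prop} {p q : V} (h : Wp G P p q)
    (hPQ : ∀ z, P z → Q z) : Wp G Q p q := by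
  obtain ⟨w, hw⟩ := h
  exact ⟨w, fun z hz => hPQ z (hw z hz)⟩

lemma Wp.of_adj {V : Type} {G : SimpleGraph V} {P : V → Prop} {p q : V} (h : G.Adj p q)
    (hp : P p) (hq : P q) : Wp G P p q := by
  refine ⟨SimpleGraph.Walk.cons h SimpleGraph.Walk.nil, fun z hz => ?_⟩
  simp only [SimpleGraph.Walk.support_cons, SimpleGraph.Walk.support_nil, List.mem_cons,
    List.not_mem_nil, or_false] at hz
  rcases hz with rfl | rfl
  · exact hp
  · exact hq

lemma Wp.refl {V : Type} {G : SimpleGraph V} {P : V → Prop} {p : V} (hp : P p) :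
    Wp G P p p := by
  refine ⟨SimpleGraph.Walk.nil, fun z hz => ?_⟩
  simp only [SimpleGraph.Walk.support_nil, List.mem_cons, List.not_mem_nil, or_false] at hz
  rw [hz]; exact hp

/-- Vertices on a walk are within its length of the start. -/
lemma dist_le_of_mem {V : Type} {G : SimpleGraph V} {p q z : V} (w : G.Walk p q)
    (hz : z ∈ w.support) : G.dist p z ≤ w.length := by
  classical
  exact (SimpleGraph.dist_le (w.takeUntil z hz)).trans (w.length_takeUntil_le_length hz)

/-- Image of a walk under a coarse map. -/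
lemma coarse_walk {V W : Type} {G : SimpleGraph V} {S : SimpleGraph W} (hS : S.Connected)
    (f : V → W) (κ : ℝ) (hf : ∀ x y, G.Adj x y → (S.dist (f x) (f y) : ℝ) ≤ κ) (hκ : 0 ≤ κ)
    {P : V → Prop} {p q : V} (h : Wp G P p q) :
    Wp S (fun v => ∃ z, P z ∧ (S.dist (f z) v : ℝ) ≤ κ) (f p) (f q) := by
  obtain ⟨w, hw⟩ := h
  induction w with
  | @nil p =>
    refine Wp.refl ⟨p, hw p (by simp), ?_⟩
    simpa using hκ
  | @cons p r q h w ih =>
    have h1 : P p := hw p (by simp)
    have h2 := ih (fun z hz => hw z (by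
      rw [SimpleGraph.Walk.support_cons]; exact List.mem_cons_of_mem _ hz))
    refine Wp.trans ?_ h2
    obtain ⟨u, hu⟩ := hS.exists_walk_length_eq_dist (f p) (f r)
    refine ⟨u, fun v hv => ⟨p, h1, ?_⟩⟩
    have h3 := dist_le_of_mem u hv
    rw [hu] at h3
    exact le_trans (by exact_mod_cast h3) (hf p r h)

/-- In a tree there is a middle vertex between `p` and `q` through which every walk passes. -/
lemma tree_mid {W : Type} {S : SimpleGraph W} (hS : S.IsTree) (p q : W) :
    ∃ v, S.dist p q ≤ 2 * S.dist p v + 1 ∧ S.dist p q ≤ 2 * S.dist q v + 1 ∧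
      ∀ Q : W → Prop, Wp S Q p q → Q v := by
  classical
  obtain ⟨w, hw⟩ := hS.connected.exists_walk_length_eq_dist p q
  refine ⟨w.getVert (S.dist p q / 2), ?_⟩
  have hlt : S.dist p q / 2 ≤ w.length := by omega
  have h1 : S.dist p (w.getVert (S.dist p q / 2)) ≤ S.dist p q / 2 := by
    refine (SimpleGraph.dist_le (w.take (S.dist p q / 2))).trans ?_
    rw [SimpleGraph.Walk.take_length]
    omega
  have h2 : S.dist (w.getVert (S.dist p q / 2)) q ≤ S.dist p q - S.dist p q / 2 := by
    refine (SimpleGraph.dist_le (w.drop (S.dist p q / 2))).trans ?_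
    rw [SimpleGraph.Walk.drop_length]
    omega
  have h3 := hS.connected.dist_triangle (u := p) (v := w.getVert (S.dist p q / 2)) (w := q)
  have h4 := S.dist_comm (u := w.getVert (S.dist p q / 2)) (v := q)
  refine ⟨by omega, by omega, ?_⟩
  rintro Q ⟨u, hu⟩
  apply hu
  have hwp : w.IsPath := w.isPath_of_length_eq_dist hw
  have hup : u.bypass.IsPath := u.bypass_isPath
  have huniq := (hS.isAcyclic.subsingleton_path p q).elim ⟨w, hwp⟩ ⟨u.bypass, hup⟩
  have huniq' : w = u.bypass := congrArg Subtype.val huniq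
  apply u.support_bypass_subset_support
  rw [← huniq']
  exact w.getVert_mem_support _

lemma level_le {K : Option ℕ} (p q : Vt K) : p.1.1 ≤ q.1.1 + (T K).dist p q := by
  obtain ⟨H, h1, h2, _, h4⟩ := exists_cost p q
  unfold cost at h4
  omega

/-- A vertex of the infinite horoball. -/
def vt (l : ℕ) (j : ℤ) : Vt none := ⟨(l, j), ok_none l⟩

lemma wp_up (j : ℤ) (k : ℕ) :
    Wp (T none) (fun z => (T none).dist (vt 0 j) z ≤ z.1.1) (vt 0 j) (vt k (c^[k] j)) := by
  have hd : ∀ k, (T none).dist (vt 0 j) (vt k (c^[k] j)) ≤ k := by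
    intro k
    obtain ⟨w, hw⟩ := wk_up (K := none) k 0 j (ok_none _)
    have := (SimpleGraph.dist_le w).trans hw
    simp only [zero_add] at this
    exact this
  induction k with
  | zero =>
    refine Wp.refl ?_
    simp
  | succ k ih =>
    refine ih.trans (Wp.of_adj ?_ (hd k) (hd (k + 1)))
    have := adj_up (K := none) k (c^[k] j) (ok_none _)
    rw [Function.iterate_succ_apply']
    exact this

lemma wp_right (k : ℕ) : Wp (T none) (fun z => z.1.1 = 0) (vt 0 0) (vt 0 k) := by
  induction k with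
  | zero => exact Wp.refl rfl
  | succ k ih =>
    refine ih.trans (Wp.of_adj ?_ rfl rfl)
    have := adj_right (K := none) 0 k (ok_none _)
    have e : ((k + 1 : ℕ) : ℤ) = (k : ℤ) + 1 := by push_cast; ring
    rw [e]
    exact this

lemma c_iter_zero (k : ℕ) : c^[k] 0 = 0 := by
  induction k with
  | zero => rfl
  | succ k ih => rw [Function.iterate_succ_apply]; exact ih

lemma c_iter_pow (k m : ℕ) : c^[k] ((2 : ℤ) ^ (k + m)) = 2 ^ m := by
  induction k with
  | zero => simp
  | succ k ih =>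
    rw [Function.iterate_succ_apply]
    have : c ((2 : ℤ) ^ (k + 1 + m)) = 2 ^ (k + m) := by
      unfold c
      have e : (2 : ℤ) ^ (k + 1 + m) = 2 * 2 ^ (k + m) := by ring
      rw [e]; omega
    rw [this, ih]

lemma bottom_far (n : ℕ) : n ≤ (T none).dist (vt 0 0) (vt 0 ((2 ^ n : ℕ) : ℤ)) := by
  obtain ⟨H, h1, h2, _, h4⟩ := exists_cost (vt 0 0) (vt 0 ((2 ^ n : ℕ) : ℤ))
  rw [h4]
  unfold cost Nn vt
  simp only [Nat.sub_zero]
  by_cases hH : n ≤ H
  · omega
  · obtain ⟨m, rfl⟩ : ∃ m, n = H + m := ⟨n - H, by omega⟩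
    rw [c_iter_zero]
    push_cast
    rw [c_iter_pow]
    have : m < 2 ^ m := Nat.lt_two_pow_self
    have h5 : ((0 : ℤ) - 2 ^ m).natAbs = 2 ^ m := by
      rw [zero_sub, Int.natAbs_neg, Int.natAbs_pow]; rfl
    rw [h5]
    omega

/-- The infinite horoball is not quasi-isometric to a tree. -/
lemma T_none_not_tree : ¬ QITree (T none) := by
  rintro ⟨W, S, f, hS, ⟨L, C, hL, hC, hf⟩, _⟩
  simp only at hf
  have hκ : ∀ x y, (T none).Adj x y → (S.dist (f x) (f y) : ℝ) ≤ L + C := by
    intro x y h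
    have h1 := (hf x y).2
    have h2 : (T none).dist x y = 1 := SimpleGraph.dist_eq_one_iff_adj.mpr h
    rw [h2] at h1
    simpa using h1
  have hκ0 : 0 ≤ L + C := by linarith
  set C1 : ℝ := L * (2 * (L + C) + C) with hC1
  set C2 : ℝ := L * C1 + C + (L + C) with hC2
  obtain ⟨n, hn⟩ := exists_nat_gt (L * (C + 2 * C2 + 1))
  set P := vt 0 0 with hP
  set Q := vt 0 ((2 ^ n : ℕ) : ℤ) with hQ
  have hfar := bottom_far n
  rw [← hP, ← hQ] at hfar
  -- the two walks
  have hB : Wp (T none) (fun z => z.1.1 = 0) P Q := wp_right (2 ^ n)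
  have hA : Wp (T none) (fun z => (T none).dist P z ≤ z.1.1 ∨ (T none).dist Q z ≤ z.1.1) P Q := by
    have h1 := wp_up 0 n
    have h2 := wp_up ((2 ^ n : ℕ) : ℤ) n
    rw [c_iter_zero] at h1
    have e : c^[n] ((2 ^ n : ℕ) : ℤ) = 1 := by
      have := c_iter_pow n 0
      push_cast
      simpa using this
    rw [e] at h2
    have h4 : Wp (T none) (fun z => (T none).dist P z ≤ z.1.1 ∨ (T none).dist Q z ≤ z.1.1)
        (vt n 0) (vt n 1) := by
      refine Wp.of_adj (adj_right n 0 (ok_none _)) (Or.inl ?_) (Or.inr ?_)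
      · obtain ⟨w, hw⟩ := h1
        exact hw _ w.end_mem_support
      · obtain ⟨w, hw⟩ := h2
        exact hw _ w.end_mem_support
    exact ((h1.mono (fun z hz => Or.inl hz)).trans h4).trans
      (h2.mono (fun z hz => Or.inr hz)).symm
  obtain ⟨v, hv1, hv2, hv3⟩ := tree_mid hS (f P) (f Q)
  obtain ⟨b, hb, hb'⟩ := hv3 _ (coarse_walk hS.connected f _ hκ hκ0 hB)
  obtain ⟨a, ha, ha'⟩ := hv3 _ (coarse_walk hS.connected f _ hκ hκ0 hA)
  have hab : (S.dist (f a) (f b) : ℝ) ≤ 2 * (L + C) := by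
    have h1 := hS.connected.dist_triangle (u := f a) (v := v) (w := f b)
    have h2 := S.dist_comm (u := v) (v := f b)
    rw [h2] at h1
    have h3 : (S.dist (f a) (f b) : ℝ) ≤ S.dist (f a) v + S.dist (f b) v := by exact_mod_cast h1
    linarith
  have hLpos : 0 < L := by linarith
  have hd : ((T none).dist a b : ℝ) ≤ C1 := by
    have h1 := (hf a b).1
    have h2 : ((T none).dist a b : ℝ) / L ≤ 2 * (L + C) + C := by linarith
    rw [div_le_iff₀ hLpos] at h2
    rw [hC1]; linarith
  have hlev : (a.1.1 : ℝ) ≤ C1 := by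
    have h1 := level_le a b
    rw [hb, zero_add] at h1
    exact le_trans (by exact_mod_cast h1) hd
  have hfin : ∀ R : Vt none, (T none).dist R a ≤ a.1.1 → (S.dist (f R) v : ℝ) ≤ C2 := by
    intro R hR
    have h1 := (hf R a).2
    have h2 : ((T none).dist R a : ℝ) ≤ C1 := le_trans (by exact_mod_cast hR) hlev
    have h3 := hS.connected.dist_triangle (u := f R) (v := f a) (w := v)
    have h4 : (S.dist (f R) v : ℝ) ≤ S.dist (f R) (f a) + S.dist (f a) v := by exact_mod_cast h3
    have h5 : L * ((T none).dist R a : ℝ) ≤ L * C1 := mul_le_mul_of_nonneg_left h2 hLpos.le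
    rw [hC2]; linarith
  have hDle : (S.dist (f P) (f Q) : ℝ) ≤ 2 * C2 + 1 := by
    rcases ha with ha | ha
    · have h1 := hfin P ha
      have h2 : (S.dist (f P) (f Q) : ℝ) ≤ 2 * S.dist (f P) v + 1 := by exact_mod_cast hv1
      linarith
    · have h1 := hfin Q ha
      have h2 : (S.dist (f P) (f Q) : ℝ) ≤ 2 * S.dist (f Q) v + 1 := by exact_mod_cast hv2
      linarith
  have h1 := (hf P Q).1
  have h2 : ((T none).dist P Q : ℝ) / L ≤ 2 * C2 + 1 + C := by linarith
  rw [div_le_iff₀ hLpos] at h2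
  have h3 : (n : ℝ) ≤ (T none).dist P Q := by exact_mod_cast hfar
  linarith

end Pool.Agent.H.MP_8b7a64_al
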